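import Pool.Agent.T6.H34.E6.Dom
import Pool.Agent.R895.LemA

/-!
# Blichfeldt's bound for hermitian forms over the Eisenstein integers
-/

set_option autoImplicit false
set_option maxHeartbeats 400000

namespace Pool.Agent.T6.H34.E6

open MeasureTheory Matrix
open Pool.Agent.R895 (om IsEis IsLat sqrt3_sq sqrt3_pos Pd q IsGL exists_red q_conj q_dec)

variable {r : ℕ}

/-- The linear map whose square is the form. -/
noncomputable def Bm (m : Fin r → ℝ) (x : Fin r → Fin r → ℂ) : Matrix (Fin r) (Fin r) ℂ :=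
  fun i j => (√(m i) : ℂ) * star (x i j)

theorem Bm_det {m : Fin r → ℝ} {x : Fin r → Fin r → ℂ} (hd : ∀ i, x i i = 1)
    (hz : ∀ i j, j < i → x i j = 0) : (Bm m x).det = ∏ i, (√(m i) : ℂ) := by
  rw [Matrix.det_of_upperTriangular]
  · exact Finset.prod_congr rfl fun i _ => by simp [Bm, hd]
  · intro i j hij
    simp [Bm, hz i j hij]

theorem Bm_apply (m : Fin r → ℝ) (x : Fin r → Fin r → ℂ) (v : Fin r → ℂ) (i : Fin r) :
    (Bm m x *ᵥ v) i = (√(m i) : ℂ) * (star (x i) ⬝ᵥ v) := by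
  simp only [mulVec, dotProduct, Bm, Finset.mul_sum, Pi.star_apply]
  exact Finset.sum_congr rfl fun j _ => by ring

/-- The form. -/
noncomputable def Q (m : Fin r → ℝ) (x : Fin r → Fin r → ℂ) (v : Fin r → ℂ) : ℝ :=
  ∑ i, m i * Complex.normSq (star (x i) ⬝ᵥ v)

theorem Q_eq {m : Fin r → ℝ} (hm : ∀ i, 0 < m i) (x : Fin r → Fin r → ℂ) (v : Fin r → ℂ) :
    Q m x v = ∑ i, ‖(Bm m x *ᵥ v) i‖ ^ 2 := by
  refine Finset.sum_congr rfl fun i _ => ?_
  rw [Bm_apply, norm_mul, mul_pow, Complex.norm_real, Real.norm_of_nonneg (Real.sqrt_nonneg _),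
    Real.sq_sqrt (hm i).le, Complex.normSq_eq_norm_sq]

/-- The real-linear map. -/
noncomputable def Br (m : Fin r → ℝ) (x : Fin r → Fin r → ℂ) : (Fin r → ℂ) →ₗ[ℝ] (Fin r → ℂ) :=
  (Matrix.toLin' (Bm m x)).restrictScalars ℝ

theorem Br_apply (m : Fin r → ℝ) (x : Fin r → Fin r → ℂ) (v : Fin r → ℂ) :
    Br m x v = Bm m x *ᵥ v := rfl

theorem Br_det {m : Fin r → ℝ} (hm : ∀ i, 0 < m i) {x : Fin r → Fin r → ℂ} (hd : ∀ i, x i i = 1)
    (hz : ∀ i j, j < i → x i j = 0) : LinearMap.det (Br m x) = ∏ i, m i := by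
  rw [Br, LinearMap.det_restrictScalars, LinearMap.det_toLin', Bm_det hd hz,
    Algebra.norm_complex_apply, map_prod]
  refine Finset.prod_congr rfl fun i _ => ?_
  rw [Complex.normSq_ofReal, Real.mul_self_sqrt (hm i).le]

theorem vol_ball (hr : 0 < r) {ρ : ℝ} (hρ : 0 < ρ) :
    volume {w : Fin r → ℂ | ∑ i, ‖w i‖ ^ 2 < ρ} =
      ENNReal.ofReal (ρ ^ r * Real.pi ^ r / (r.factorial : ℝ)) := by
  have : Nonempty (Fin r) := ⟨⟨0, hr⟩⟩
  have h := Complex.volume_sum_rpow_lt (Fin r) (p := 2) (by norm_num) (√ρ)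
  have hset : {w : Fin r → ℂ | ∑ i, ‖w i‖ ^ 2 < ρ} =
      {x : Fin r → ℂ | (∑ i, ‖x i‖ ^ (2 : ℝ)) ^ (1 / 2 : ℝ) < √ρ} := by
    ext w
    have h0 : 0 ≤ ∑ i, ‖w i‖ ^ 2 := Finset.sum_nonneg fun i _ => by positivity
    simp only [Set.mem_setOf_eq, Real.rpow_ofNat]
    rw [← Real.sqrt_eq_rpow, Real.sqrt_lt_sqrt_iff h0]
  rw [hset, h, Fintype.card_fin]
  have e1 : (2 : ℝ) / 2 + 1 = 2 := by norm_num
  have e2 : (2 : ℝ) * (r : ℝ) / 2 + 1 = r + 1 := by ring
  rw [e1, e2, Real.Gamma_two, mul_one, Real.Gamma_nat_eq_factorial, pow_mul,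
    ← ENNReal.ofReal_pow (Real.sqrt_nonneg _), Real.sq_sqrt hρ.le, ← ENNReal.ofReal_pow hρ.le,
    ← ENNReal.ofReal_mul (by positivity), mul_div_assoc]

theorem vol_Q (hr : 0 < r) {m : Fin r → ℝ} (hm : ∀ i, 0 < m i) {x : Fin r → Fin r → ℂ}
    (hd : ∀ i, x i i = 1) (hz : ∀ i j, j < i → x i j = 0) {ρ : ℝ} (hρ : 0 < ρ) :
    volume {v : Fin r → ℂ | Q m x v < ρ} =
      ENNReal.ofReal (ρ ^ r * Real.pi ^ r / (r.factorial : ℝ) / ∏ i, m i) := by
  have hp : 0 < ∏ i, m i := Finset.prod_pos fun i _ => hm i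
  have hdet := Br_det hm hd hz
  have hset : {v : Fin r → ℂ | Q m x v < ρ} =
      Br m x ⁻¹' {w : Fin r → ℂ | ∑ i, ‖w i‖ ^ 2 < ρ} := by
    ext v
    simp only [Set.mem_setOf_eq, Set.mem_preimage, Q_eq hm, Br_apply]
  rw [hset, Measure.addHaar_preimage_linearMap _ (by rw [hdet]; exact hp.ne'), hdet,
    vol_ball hr hρ, ← ENNReal.ofReal_mul (abs_nonneg _), abs_of_pos (inv_pos.2 hp)]
  congr 1
  rw [mul_comm, div_eq_mul_inv _ (∏ i, m i)]

/-- Blichfeldt's inequality. -/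
theorem count {ι : Type*} (s : Finset ι) (y : ι → Fin r → ℂ) {m : Fin r → ℝ} (hm : ∀ i, 0 < m i)
    (x : Fin r → Fin r → ℂ) {h : ℝ}
    (hsep : ∀ a ∈ s, ∀ b ∈ s, a ≠ b → h ≤ Q m x (y a - y b)) :
    (s.card : ℝ) * (s.card - 1) * h ≤ 2 * s.card * ∑ a ∈ s, Q m x (y a) := by
  classical
  have h1 : (s.card : ℝ) * (s.card - 1) * h ≤ ∑ a ∈ s, ∑ b ∈ s, Q m x (y a - y b) := by
    have h2 : ∀ a ∈ s, ((s.card : ℝ) - 1) * h ≤ ∑ b ∈ s, Q m x (y a - y b) := by
      intro a ha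
      have h3 : ∑ b ∈ s.erase a, h ≤ ∑ b ∈ s.erase a, Q m x (y a - y b) :=
        Finset.sum_le_sum fun b hb =>
          hsep a ha b (Finset.mem_of_mem_erase hb) (Finset.ne_of_mem_erase hb).symm
      rw [Finset.sum_const, nsmul_eq_mul, Finset.card_erase_of_mem ha,
        Nat.cast_sub (Finset.card_pos.2 ⟨a, ha⟩), Nat.cast_one] at h3
      rw [← Finset.add_sum_erase s _ ha]
      have h4 : 0 ≤ Q m x (y a - y a) := Finset.sum_nonneg fun i _ =>
        mul_nonneg (hm i).le (Complex.normSq_nonneg _)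
      linarith
    calc (s.card : ℝ) * (s.card - 1) * h = ∑ a ∈ s, ((s.card : ℝ) - 1) * h := by
          rw [Finset.sum_const, nsmul_eq_mul]; ring
      _ ≤ _ := Finset.sum_le_sum h2
  refine h1.trans ?_
  have h5 : ∑ a ∈ s, ∑ b ∈ s, Q m x (y a - y b) = ∑ i, m i * (∑ a ∈ s, ∑ b ∈ s,
      Complex.normSq (star (x i) ⬝ᵥ y a - star (x i) ⬝ᵥ y b)) := by
    simp only [Q, Finset.mul_sum, dotProduct_sub]
    rw [Finset.sum_comm]
    rw [Finset.sum_comm]
    calc ∑ a ∈ s, ∑ b ∈ s, ∑ i, m i * Complex.normSq (star (x i) ⬝ᵥ y a - star (x i) ⬝ᵥ y b)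
        = ∑ a ∈ s, ∑ i, ∑ b ∈ s,
            m i * Complex.normSq (star (x i) ⬝ᵥ y a - star (x i) ⬝ᵥ y b) :=
          Finset.sum_congr rfl fun a _ => Finset.sum_comm
      _ = _ := Finset.sum_comm
  have h6 : 2 * s.card * ∑ a ∈ s, Q m x (y a) = ∑ i, m i * (2 * s.card *
      ∑ a ∈ s, Complex.normSq (star (x i) ⬝ᵥ y a)) := by
    simp only [Q, Finset.mul_sum]
    rw [Finset.sum_comm]
    exact Finset.sum_congr rfl fun i _ => Finset.sum_congr rfl fun a _ => by ring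
  rw [h5, h6]
  refine Finset.sum_le_sum fun i _ => mul_le_mul_of_nonneg_left ?_ (hm i).le
  -- the identity for complex numbers
  have key : ∀ z : ι → ℂ, ∑ a ∈ s, ∑ b ∈ s, Complex.normSq (z a - z b) =
      2 * s.card * ∑ a ∈ s, Complex.normSq (z a) - 2 * Complex.normSq (∑ a ∈ s, z a) := by
    intro z
    have e1 : ∀ a b, Complex.normSq (z a - z b) = Complex.normSq (z a) + Complex.normSq (z b) -
        2 * ((z a).re * (z b).re + (z a).im * (z b).im) := by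
      intro a b
      rw [Complex.normSq_apply, Complex.normSq_apply, Complex.normSq_apply, Complex.sub_re,
        Complex.sub_im]
      ring
    simp only [e1, Finset.sum_sub_distrib, Finset.sum_add_distrib, Finset.sum_const, nsmul_eq_mul,
      ← Finset.mul_sum]
    rw [Complex.normSq_apply, Complex.re_sum, Complex.im_sum]
    simp only [← Finset.sum_mul]
    ring
  rw [key]
  have := Complex.normSq_nonneg (∑ a ∈ s, star (x i) ⬝ᵥ y a)
  linarith

theorem sum_le_one {ι : Type*} (s : Finset ι) (y : ι → Fin r → ℂ) {m : Fin r → ℝ}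
    (hm : ∀ i, 0 < m i) (x : Fin r → Fin r → ℂ) {h : ℝ} (hh : 0 < h)
    (hsep : ∀ a ∈ s, ∀ b ∈ s, a ≠ b → h ≤ Q m x (y a - y b)) :
    ∑ a ∈ s, max 0 (1 - 2 * Q m x (y a) / h) ≤ 1 := by
  classical
  set s' := s.filter (fun a => 2 * Q m x (y a) / h < 1) with hs'
  have h1 : ∑ a ∈ s, max 0 (1 - 2 * Q m x (y a) / h) =
      ∑ a ∈ s', (1 - 2 * Q m x (y a) / h) := by
    rw [hs', Finset.sum_filter]
    refine Finset.sum_congr rfl fun a _ => ?_
    split_ifs with h2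
    · exact max_eq_right (by linarith)
    · exact max_eq_left (by linarith)
  rw [h1]
  rcases s'.eq_empty_or_nonempty with h2 | h2
  · rw [h2, Finset.sum_empty]; norm_num
  · have h3 := count s' y hm x (h := h) (fun a ha b hb hab =>
      hsep a (Finset.mem_filter.1 ha).1 b (Finset.mem_filter.1 hb).1 hab)
    have h4 : (0 : ℝ) < s'.card := by exact_mod_cast Finset.card_pos.2 h2
    have h5 : ((s'.card : ℝ) - 1) * h ≤ 2 * ∑ a ∈ s', Q m x (y a) := by
      by_contra hcon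
      push Not at hcon
      have := mul_lt_mul_of_pos_left hcon h4
      nlinarith
    have h6 : ∑ a ∈ s', (1 - 2 * Q m x (y a) / h) =
        s'.card - 2 * (∑ a ∈ s', Q m x (y a)) / h := by
      rw [Finset.sum_sub_distrib, Finset.sum_const, nsmul_eq_mul, mul_one, ← Finset.sum_div,
        ← Finset.mul_sum]
    rw [h6]
    have h7 : (s'.card : ℝ) - 1 ≤ 2 * (∑ a ∈ s', Q m x (y a)) / h := by
      rw [le_div_iff₀ hh]; exact h5
    linarith

end Pool.Agent.T6.H34.E6
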