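import Pool.Agent.T6.H34.E6.Blich

/-!
# Blichfeldt's bound for hermitian forms over the Eisenstein integers, part 2
-/

set_option autoImplicit false
set_option maxHeartbeats 400000

namespace Pool.Agent.T6.H34.E6

open MeasureTheory Matrix
open Pool.Agent.R895 (om IsEis IsLat sqrt3_sq sqrt3_pos Pd q IsGL exists_red q_conj q_dec det_dec)

variable {r : ℕ}

theorem continuous_Q (m : Fin r → ℝ) (x : Fin r → Fin r → ℂ) : Continuous (Q m x) := by
  unfold Q
  refine continuous_finsetSum _ fun i _ => continuous_const.mul ?_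
  refine Complex.continuous_normSq.comp ?_
  unfold dotProduct
  exact continuous_finsetSum _ fun j _ => continuous_const.mul (continuous_apply j)

theorem lint (C : ℝ) (hC : 0 ≤ C) (r : ℕ) :
    ∫⁻ t in Set.Ioo (0 : ℝ) 1, ENNReal.ofReal (C * (1 - t) ^ r) =
      ENNReal.ofReal (C / (r + 1)) := by
  have hcont : Continuous fun t : ℝ => C * (1 - t) ^ r := by fun_prop
  have hint : IntegrableOn (fun t : ℝ => C * (1 - t) ^ r) (Set.Ioo 0 1) :=
    (hcont.integrableOn_Icc (a := 0) (b := 1)).mono_set Set.Ioo_subset_Icc_self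
  rw [← ofReal_integral_eq_lintegral_ofReal hint]
  · congr 1
    rw [← integral_Ioc_eq_integral_Ioo, ← intervalIntegral.integral_of_le zero_le_one,
      intervalIntegral.integral_const_mul]
    have h1 : ∫ t in (0 : ℝ)..1, (1 - t) ^ r = 1 / (r + 1) := by
      have := intervalIntegral.integral_comp_sub_left (fun t : ℝ => t ^ r) (a := 0) (b := 1) 1
      rw [this]
      simp [integral_pow]
    rw [h1]
    ring
  · refine (ae_restrict_iff' measurableSet_Ioo).2 (Filter.Eventually.of_forall fun t ht => ?_)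
    have : 0 ≤ 1 - t := by linarith [ht.2]
    positivity

theorem blich0 (hr : 0 < r) {m : Fin r → ℝ} (hm : ∀ i, 0 < m i) {x : Fin r → Fin r → ℂ}
    (hd : ∀ i, x i i = 1) (hz : ∀ i j, j < i → x i j = 0) {h : ℝ} (hh : 0 < h)
    (hmin : ∀ v, IsLat v → v ≠ 0 → h ≤ Q m x v) :
    (Real.pi / √3) ^ r / ((r + 1).factorial : ℝ) * h ^ r ≤ ∏ i, m i := by
  have h3 := sqrt3_pos
  have hp : 0 < ∏ i, m i := Finset.prod_pos fun i _ => hm i
  set f : (Fin r → ℂ) → ℝ := fun v => max 0 (1 - 2 * Q m x v / h) with hf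
  have hfc : Continuous f := by
    have := continuous_Q m x
    rw [hf]
    fun_prop
  have hf0 : ∀ v, 0 ≤ f v := fun v => le_max_left _ _
  -- the upper bound
  have hup : ∫⁻ v, ENNReal.ofReal (f v) ≤ ENNReal.ofReal (√3 / 2) ^ r := by
    rw [(isDom r).lintegral_eq_tsum'' (fun v => ENNReal.ofReal (f v)), ← lintegral_tsum]
    · rw [← vol_dom r, ← one_mul (volume (dom r)), ← setLIntegral_const]
      refine lintegral_mono fun v => ?_
      rw [ENNReal.tsum_eq_iSup_sum]
      refine iSup_le fun s => ?_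
      rw [← ENNReal.ofReal_sum_of_nonneg fun g _ => hf0 _, ← ENNReal.ofReal_one]
      refine ENNReal.ofReal_le_ofReal ?_
      refine sum_le_one s (fun g : latt r => g +ᵥ v) hm x hh fun a _ b _ hab => ?_
      have e : (a +ᵥ v : Fin r → ℂ) - (b +ᵥ v) = (a : Fin r → ℂ) - b := by
        show ((a : Fin r → ℂ) + v) - ((b : Fin r → ℂ) + v) = _
        abel
      rw [e]
      refine hmin _ (fun i => (a.2 i).sub (b.2 i)) fun h0 => hab ?_
      exact Subtype.ext (sub_eq_zero.1 h0)
    · intro g
      have : Measurable fun v : Fin r → ℂ => ENNReal.ofReal (f (g +ᵥ v)) := by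
        have h1 : Continuous fun v : Fin r → ℂ => f ((g : Fin r → ℂ) + v) :=
          hfc.comp (continuous_const.add continuous_id)
        exact h1.measurable.ennreal_ofReal
      exact this.aemeasurable
  -- the lower bound
  set C : ℝ := (h / 2) ^ r * Real.pi ^ r / (r.factorial : ℝ) / ∏ i, m i with hC
  have hC0 : 0 ≤ C := by positivity
  have hlow : ENNReal.ofReal (C / (r + 1)) ≤ ∫⁻ v, ENNReal.ofReal (f v) := by
    rw [lintegral_eq_lintegral_meas_lt volume (Filter.Eventually.of_forall hf0)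
      hfc.measurable.aemeasurable, ← lint C hC0 r]
    refine le_trans ?_ (lintegral_mono_set
      (Set.Ioo_subset_Ioi_self : Set.Ioo (0 : ℝ) 1 ⊆ Set.Ioi 0))
    refine setLIntegral_mono' measurableSet_Ioo fun t ht => le_of_eq ?_
    have hset : {a : Fin r → ℂ | t < f a} = {v | Q m x v < h / 2 * (1 - t)} := by
      ext v
      simp only [Set.mem_setOf_eq, hf, lt_max_iff]
      constructor
      · rintro (h1 | h1)
        · exact absurd h1 (not_lt.2 ht.1.le)
        · have h2 : 2 * Q m x v / h < 1 - t := by linarith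
          rw [div_lt_iff₀ hh] at h2
          linarith
      · intro h1
        right
        have h2 : 2 * Q m x v / h < 1 - t := by
          rw [div_lt_iff₀ hh]
          linarith
        linarith
    rw [hset, vol_Q hr hm hd hz (mul_pos (by positivity) (by linarith [ht.2]))]
    congr 1
    rw [hC, mul_pow]
    ring
  have hfin := hlow.trans hup
  rw [← ENNReal.ofReal_pow (by positivity), ENNReal.ofReal_le_ofReal_iff (by positivity)] at hfin
  rw [hC] at hfin
  have hr1 : (0 : ℝ) < (r : ℝ) + 1 := by positivity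
  rw [Nat.factorial_succ]
  push_cast
  have hfac : (0 : ℝ) < (r.factorial : ℝ) := by exact_mod_cast Nat.factorial_pos r
  rw [div_le_iff₀ hr1, div_le_iff₀ hp, div_le_iff₀ hfac] at hfin
  rw [div_mul_eq_mul_div, div_le_iff₀ (by positivity)]
  rw [div_pow, div_mul_eq_mul_div, div_le_iff₀ (by positivity)]
  have e1 : (h / 2) ^ r * Real.pi ^ r = (h ^ r * Real.pi ^ r) / 2 ^ r := by
    rw [div_pow]; ring
  have e2 : (√3 / 2) ^ r * ((r : ℝ) + 1) * (∏ i, m i) * (r.factorial : ℝ) =
      (√3 ^ r * ((r : ℝ) + 1) * (∏ i, m i) * (r.factorial : ℝ)) / 2 ^ r := by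
    rw [div_pow]; ring
  rw [e1, e2, div_le_div_iff_of_pos_right (by positivity)] at hfin
  linarith

/-- Blichfeldt's bound. -/
theorem blich (hr : 0 < r) {H : Matrix (Fin r) (Fin r) ℂ} (hH : Pd H) {h : ℝ} (hh : 0 < h)
    (hmin : ∀ w, IsLat w → w ≠ 0 → h ≤ q H w) :
    (Real.pi / √3) ^ r / ((r + 1).factorial : ℝ) * h ^ r ≤ H.det.re := by
  obtain ⟨g, x, m, hg, hm, hch, hd, hz, hs, hdec⟩ := exists_red r H hH
  have h1 : H.det = ((∏ i, m i : ℝ) : ℂ) := by
    rw [← det_dec m x hd hz, ← hdec, det_mul, det_mul, det_conjTranspose]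
    have h2 : star g.det * H.det * g.det = ((Complex.normSq g.det : ℝ) : ℂ) * H.det := by
      have : star g.det * g.det = ((Complex.normSq g.det : ℝ) : ℂ) :=
        Complex.normSq_eq_conj_mul_self.symm
      rw [← this]; ring
    rw [h2, hg.normSq_det]
    simp
  rw [h1, Complex.ofReal_re]
  refine blich0 hr hm hd hz hh fun v hv hv0 => ?_
  have h2 := hmin _ (hg.mulVec hv) (hg.mulVec_ne hv0)
  rw [← q_conj, hdec, q_dec] at h2
  exact h2

theorem pi_sqrt3 : (3289 / 1000 : ℝ) ≤ (Real.pi / √3) ^ 2 := by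
  rw [div_pow, Real.sq_sqrt (by norm_num), le_div_iff₀ (by norm_num)]
  have := Real.pi_gt_d4
  nlinarith

end Pool.Agent.T6.H34.E6
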