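import Pool.Agent.T6.H34.E6.Blich2
import Pool.Agent.T6.H41.K5.LemA

/-!
# The linear inequalities in rank six
-/

set_option autoImplicit false
set_option maxHeartbeats 400000

namespace Pool.Agent.T6.H34.E6

open Matrix
open Pool.Agent.R895 hiding V_ge V_ge' comb lemA_pd lemA_pd' lemA lemA'

theorem ps3_gt : (1813 / 1000 : ℝ) ≤ Real.pi / √3 := by
  have h := pi_sqrt3
  have h0 : 0 ≤ Real.pi / √3 := by positivity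
  by_contra hcon
  push Not at hcon
  have : (Real.pi / √3) ^ 2 < (1813 / 1000) ^ 2 := pow_lt_pow_left₀ hcon h0 (by norm_num)
  norm_num at this
  linarith

theorem D6 : (705 / 100000 : ℝ) ≤ (Real.pi / √3) ^ 6 / (Nat.factorial (6 + 1) : ℝ) := by
  have h := pi_sqrt3
  have h1 : (3289 / 1000 : ℝ) ^ 3 ≤ ((Real.pi / √3) ^ 2) ^ 3 := pow_le_pow_left₀ (by norm_num) h 3
  rw [← pow_mul] at h1
  rw [le_div_iff₀ (by positivity)]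
  have h2 : (Nat.factorial (6 + 1) : ℝ) = 5040 := by norm_num [Nat.factorial]
  rw [h2]
  norm_num at h1 ⊢
  linarith

theorem D5 : (27 / 1000 : ℝ) ≤ (Real.pi / √3) ^ 5 / (Nat.factorial (5 + 1) : ℝ) := by
  have h1 : (1813 / 1000 : ℝ) ^ 5 ≤ (Real.pi / √3) ^ 5 :=
    pow_le_pow_left₀ (by norm_num) ps3_gt 5
  rw [le_div_iff₀ (by positivity)]
  have h2 : (Nat.factorial (5 + 1) : ℝ) = 720 := by norm_num [Nat.factorial]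
  rw [h2]
  norm_num at h1 ⊢
  linarith

/-- The weighted sum of the Schur complements. -/
theorem wsum {n : ℕ} (hn : 0 < n) {K : Matrix (Fin n) (Fin n) ℂ} (hK : Pd K) {w : Fin n → ℝ}
    (hw : ∀ i, 0 ≤ w i) {c h D : ℝ} (hh : 0 < h) (hD : D * h ^ n ≤ K.det.re)
    (hc : (c / n) ^ n ≤ (∏ i, w i) * D) (hc0 : 0 ≤ c) :
    c * h ≤ ∑ i, w i * hs n K i := by
  have hn' : (0 : ℝ) < n := by exact_mod_cast hn
  have h1 := amgm n hn (fun i => w i * hs n K i)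
    fun i => mul_nonneg (hw i) (hs_pos n K hK i).le
  rw [Finset.prod_mul_distrib, prod_hs n K hK] at h1
  have h2 : (∏ i, w i) * (D * h ^ n) ≤ (∏ i, w i) * K.det.re :=
    mul_le_mul_of_nonneg_left hD (Finset.prod_nonneg fun i _ => hw i)
  have h3 : (c / n) ^ n * h ^ n ≤ (∏ i, w i) * D * h ^ n :=
    mul_le_mul_of_nonneg_right hc (by positivity)
  by_contra hcon
  push Not at hcon
  have h4 : ((∑ i, w i * hs n K i) / n) ^ n < (c * h / n) ^ n :=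
    pow_lt_pow_left₀ (div_lt_div_of_pos_right hcon hn')
      (div_nonneg (Finset.sum_nonneg fun i _ => mul_nonneg (hw i) (hs_pos n K hK i).le) hn'.le)
      hn.ne'
  have h5 : (c * h / n) ^ n = (c / n) ^ n * h ^ n := by
    rw [← mul_pow]
    congr 1
    ring
  rw [h5] at h4
  have h6 : (∏ i, w i) * D * h ^ n = (∏ i, w i) * (D * h ^ n) := by ring
  linarith

theorem agm1 {a b : ℝ} (ha : 0 < a) (h1 : 2 / 3 * a ≤ b) (h2 : b ≤ a) :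
    (b + 1 / 3 * a) ^ 6 ≤ 88809 / 10000 * (a * b ^ 5) := by
  have hb : 0 < b := by linarith
  have hE : 0 ≤ b + 1 / 3 * a := by positivity
  have hb5 : 0 < b ^ 5 := by positivity
  rcases le_total (b + 1 / 3 * a) (116 / 100 * a) with h | h
  · have h3 : (b + 1 / 3 * a) ^ 5 ≤ (3 / 2 * b) ^ 5 := pow_le_pow_left₀ hE (by linarith) 5
    calc (b + 1 / 3 * a) ^ 6 = (b + 1 / 3 * a) ^ 5 * (b + 1 / 3 * a) := by ring
      _ ≤ (3 / 2 * b) ^ 5 * (116 / 100 * a) := mul_le_mul h3 h hE (by positivity)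
      _ = (3 / 2) ^ 5 * (116 / 100) * (a * b ^ 5) := by ring
      _ ≤ 88809 / 10000 * (a * b ^ 5) :=
          mul_le_mul_of_nonneg_right (by norm_num) (by positivity)
  · have h3 : (b + 1 / 3 * a) ^ 5 ≤ (1404 / 1000 * b) ^ 5 := pow_le_pow_left₀ hE (by linarith) 5
    calc (b + 1 / 3 * a) ^ 6 = (b + 1 / 3 * a) ^ 5 * (b + 1 / 3 * a) := by ring
      _ ≤ (1404 / 1000 * b) ^ 5 * (4 / 3 * a) := mul_le_mul h3 (by linarith) hE (by positivity)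
      _ = (1404 / 1000) ^ 5 * (4 / 3) * (a * b ^ 5) := by ring
      _ ≤ 88809 / 10000 * (a * b ^ 5) :=
          mul_le_mul_of_nonneg_right (by norm_num) (by positivity)

section lin

variable {m0 m1 m2 m3 m4 m5 s0 s1 s2 s3 s4 s5 h : ℝ}

/-- The assumptions on the two reduced sequences. -/
structure Lin (m0 m1 m2 m3 m4 m5 s0 s1 s2 s3 s4 s5 h : ℝ) : Prop where
  hh : 0 < h
  hm : 0 < m0
  c0 : 2 / 3 * m0 ≤ m1
  c1 : 2 / 3 * m1 ≤ m2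
  c2 : 2 / 3 * m2 ≤ m3
  c3 : 2 / 3 * m3 ≤ m4
  c4 : 2 / 3 * m4 ≤ m5
  v0 : 95 / 100 * h ≤ s0 + 2 / 3 * s1 + 4 / 9 * s2 + 8 / 27 * s3 + 16 / 81 * s4 + 32 / 243 * s5
  v0' : 4 / 3 * h ≤ s0 + s1 + 2 / 3 * s2 + 4 / 9 * s3 + 8 / 27 * s4 + 16 / 81 * s5
  v1 : h ≤ s1 + 2 / 3 * s2 + 4 / 9 * s3 + 8 / 27 * s4 + 16 / 81 * s5
  v2 : 7 / 6 * h ≤ s2 + 2 / 3 * s3 + 4 / 9 * s4 + 8 / 27 * s5
  v3 : 7 / 6 * h ≤ s3 + 2 / 3 * s4 + 4 / 9 * s5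
  v4 : 7 / 6 * h ≤ s4 + 2 / 3 * s5
  v5 : h ≤ s5

/-- The lower bound in the chamber `m1 ≤ m0`. -/
theorem Lin.plus (L : Lin m0 m1 m2 m3 m4 m5 s0 s1 s2 s3 s4 s5 h) (hle : m1 ≤ m0) :
    h * (95 / 100 * (3 * (m0 - m1)) + 4 / 3 * (3 * m1 - 2 * m0) + 7 / 6 * (m2 - 2 / 3 * m1) +
      7 / 6 * (m3 - 2 / 3 * m2) + 7 / 6 * (m4 - 2 / 3 * m3) + (m5 - 2 / 3 * m4)) ≤
    m0 * s0 + m1 * s1 + m2 * s2 + m3 * s3 + m4 * s4 + m5 * s5 := by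
  obtain ⟨hh, hm, c0, c1, c2, c3, c4, v0, v0', v1, v2, v3, v4, v5⟩ := L
  have p0 := mul_nonneg (show 0 ≤ 3 * (m0 - m1) by linarith) (sub_nonneg.2 v0)
  have p0' := mul_nonneg (show 0 ≤ 3 * m1 - 2 * m0 by linarith) (sub_nonneg.2 v0')
  have p2 := mul_nonneg (sub_nonneg.2 c1) (sub_nonneg.2 v2)
  have p3 := mul_nonneg (sub_nonneg.2 c2) (sub_nonneg.2 v3)
  have p4 := mul_nonneg (sub_nonneg.2 c3) (sub_nonneg.2 v4)
  have p5 := mul_nonneg (sub_nonneg.2 c4) (sub_nonneg.2 v5)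
  linarith only [p0, p0', p2, p3, p4, p5]

/-- The lower bound in the chamber `m0 ≤ m1`. -/
theorem Lin.minus (L : Lin m0 m1 m2 m3 m4 m5 s0 s1 s2 s3 s4 s5 h) (hle : m0 ≤ m1) :
    h * (4 / 3 * m0 + (m1 - m0) + 7 / 6 * (m2 - 2 / 3 * m1) +
      7 / 6 * (m3 - 2 / 3 * m2) + 7 / 6 * (m4 - 2 / 3 * m3) + (m5 - 2 / 3 * m4)) ≤
    m0 * s0 + m1 * s1 + m2 * s2 + m3 * s3 + m4 * s4 + m5 * s5 := by
  obtain ⟨hh, hm, c0, c1, c2, c3, c4, v0, v0', v1, v2, v3, v4, v5⟩ := L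
  have p0' := mul_nonneg hm.le (sub_nonneg.2 v0')
  have p1 := mul_nonneg (sub_nonneg.2 hle) (sub_nonneg.2 v1)
  have p2 := mul_nonneg (sub_nonneg.2 c1) (sub_nonneg.2 v2)
  have p3 := mul_nonneg (sub_nonneg.2 c2) (sub_nonneg.2 v3)
  have p4 := mul_nonneg (sub_nonneg.2 c3) (sub_nonneg.2 v4)
  have p5 := mul_nonneg (sub_nonneg.2 c4) (sub_nonneg.2 v5)
  linarith only [p0', p1, p2, p3, p4, p5]

theorem Lin.plain (L : Lin m0 m1 m2 m3 m4 m5 s0 s1 s2 s3 s4 s5 h) :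
    h * (95 / 100 * m0 + (m1 - 2 / 3 * m0) + 7 / 6 * (m2 - 2 / 3 * m1) +
      7 / 6 * (m3 - 2 / 3 * m2) + 7 / 6 * (m4 - 2 / 3 * m3) + (m5 - 2 / 3 * m4)) ≤
    m0 * s0 + m1 * s1 + m2 * s2 + m3 * s3 + m4 * s4 + m5 * s5 := by
  obtain ⟨hh, hm, c0, c1, c2, c3, c4, v0, v0', v1, v2, v3, v4, v5⟩ := L
  have p0' := mul_nonneg hm.le (sub_nonneg.2 v0)
  have p1 := mul_nonneg (sub_nonneg.2 c0) (sub_nonneg.2 v1)
  have p2 := mul_nonneg (sub_nonneg.2 c1) (sub_nonneg.2 v2)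
  have p3 := mul_nonneg (sub_nonneg.2 c2) (sub_nonneg.2 v3)
  have p4 := mul_nonneg (sub_nonneg.2 c3) (sub_nonneg.2 v4)
  have p5 := mul_nonneg (sub_nonneg.2 c4) (sub_nonneg.2 v5)
  linarith only [p0', p1, p2, p3, p4, p5]

theorem Lin.of_le (L : Lin m0 m1 m2 m3 m4 m5 s0 s1 s2 s3 s4 s5 h) {B B' : ℝ} (h1 : 1 ≤ B)
    (h2 : B ≤ B') (h3 : h * B' ≤ m0 * s0 + m1 * s1 + m2 * s2 + m3 * s3 + m4 * s4 + m5 * s5) :
    h ≤ m0 * s0 + m1 * s1 + m2 * s2 + m3 * s3 + m4 * s4 + m5 * s5 := by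
  have := mul_le_mul_of_nonneg_left (h1.trans h2) L.hh.le
  linarith

theorem Lin.k1 (L : Lin m0 m1 m2 m3 m4 m5 s0 s1 s2 s3 s4 s5 h) (hle : m0 ≤ m1)
    (h1 : 1 ≤ m1 + 1 / 3 * m0) :
    h ≤ m0 * s0 + m1 * s1 + m2 * s2 + m3 * s3 + m4 * s4 + m5 * s5 := by
  refine L.of_le h1 ?_ (L.minus hle)
  obtain ⟨hh, hm, c0, c1, c2, c3, c4, v0, v0', v1, v2, v3, v4, v5⟩ := L
  linarith

theorem Lin.k2 (L : Lin m0 m1 m2 m3 m4 m5 s0 s1 s2 s3 s4 s5 h)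
    (h1 : 1 ≤ m2 + 1 / 3 * m1 + 1 / 3 * m0) (h2 : 1 ≤ m2 + (1 / 6 * m0 + 1 / 2 * m1)) :
    h ≤ m0 * s0 + m1 * s1 + m2 * s2 + m3 * s3 + m4 * s4 + m5 * s5 := by
  rcases le_total m1 m0 with hle | hle
  · refine L.of_le h2 ?_ (L.plus hle)
    obtain ⟨hh, hm, c0, c1, c2, c3, c4, v0, v0', v1, v2, v3, v4, v5⟩ := L
    linarith
  · refine L.of_le h1 ?_ (L.minus hle)
    obtain ⟨hh, hm, c0, c1, c2, c3, c4, v0, v0', v1, v2, v3, v4, v5⟩ := L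
    linarith

theorem Lin.k3 (L : Lin m0 m1 m2 m3 m4 m5 s0 s1 s2 s3 s4 s5 h)
    (h1 : 1 ≤ m3 + 1 / 3 * m2 + (1 / 6 * m0 + 1 / 2 * m1))
    (h2 : 1 ≤ m3 + (1 / 6 * m1 + 1 / 2 * m2) + 1 / 3 * m0) :
    h ≤ m0 * s0 + m1 * s1 + m2 * s2 + m3 * s3 + m4 * s4 + m5 * s5 := by
  rcases le_total m1 m0 with hle | hle
  · refine L.of_le h1 ?_ (L.plus hle)
    obtain ⟨hh, hm, c0, c1, c2, c3, c4, v0, v0', v1, v2, v3, v4, v5⟩ := L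
    linarith
  · refine L.of_le h2 ?_ (L.minus hle)
    obtain ⟨hh, hm, c0, c1, c2, c3, c4, v0, v0', v1, v2, v3, v4, v5⟩ := L
    linarith

theorem Lin.k4 (L : Lin m0 m1 m2 m3 m4 m5 s0 s1 s2 s3 s4 s5 h)
    (h1 : 1 ≤ m4 + (1 / 6 * m2 + 1 / 2 * m3) + (1 / 6 * m0 + 1 / 2 * m1))
    (h2 : 1 ≤ m4 + (1 / 6 * m2 + 1 / 2 * m3) + 1 / 3 * m1 + 1 / 3 * m0) :
    h ≤ m0 * s0 + m1 * s1 + m2 * s2 + m3 * s3 + m4 * s4 + m5 * s5 := by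
  rcases le_total m1 m0 with hle | hle
  · refine L.of_le h1 ?_ (L.plus hle)
    obtain ⟨hh, hm, c0, c1, c2, c3, c4, v0, v0', v1, v2, v3, v4, v5⟩ := L
    linarith
  · refine L.of_le h2 ?_ (L.minus hle)
    obtain ⟨hh, hm, c0, c1, c2, c3, c4, v0, v0', v1, v2, v3, v4, v5⟩ := L
    linarith

theorem Lin.k5 (L : Lin m0 m1 m2 m3 m4 m5 s0 s1 s2 s3 s4 s5 h)
    (h1 : 1 ≤ m5 + (1 / 6 * m3 + 1 / 2 * m4) + (1 / 6 * m1 + 1 / 2 * m2) + 1 / 3 * m0) :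
    h ≤ m0 * s0 + m1 * s1 + m2 * s2 + m3 * s3 + m4 * s4 + m5 * s5 := by
  refine L.of_le h1 ?_ L.plain
  obtain ⟨hh, hm, c0, c1, c2, c3, c4, v0, v0', v1, v2, v3, v4, v5⟩ := L
  linarith

end lin

end Pool.Agent.T6.H34.E6
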