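import Pool.Agent.R895.Red

/-!
# A fundamental domain of the lattice of the vectors with Eisenstein integers as coordinates
-/

set_option autoImplicit false
set_option maxHeartbeats 400000

namespace Pool.Agent.T6.H34.E6

open MeasureTheory
open Pool.Agent.R895 (om IsEis IsLat sqrt3_sq sqrt3_pos)

/-- The coordinates with respect to `1, ω`. -/
noncomputable def cr : ℂ →ₗ[ℝ] ℂ where
  toFun z := ⟨z.re + z.im / √3, 2 * z.im / √3⟩
  map_add' z w := by
    apply Complex.ext
    · simp only [Complex.add_re, Complex.add_im]; ring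
    · simp only [Complex.add_im]; ring
  map_smul' c z := by
    apply Complex.ext
    · simp only [RingHom.id_apply, Complex.smul_re, Complex.smul_im, smul_eq_mul]; ring
    · simp only [RingHom.id_apply, Complex.smul_im, smul_eq_mul]; ring

theorem cr_re (z : ℂ) : (cr z).re = z.re + z.im / √3 := rfl

theorem cr_im (z : ℂ) : (cr z).im = 2 * z.im / √3 := rfl

theorem cr_det : LinearMap.det cr = 2 / √3 := by
  rw [← LinearMap.det_toMatrix Complex.basisOneI]
  rw [Matrix.det_fin_two]
  simp [LinearMap.toMatrix_apply, Complex.coe_basisOneI_repr, cr_re, cr_im]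

theorem cr_eis (a b : ℤ) : cr ((a : ℂ) + b * om) = ⟨a, b⟩ := by
  have h := sqrt3_pos
  apply Complex.ext
  · rw [cr_re]
    simp [om]
    field_simp
    ring
  · rw [cr_im]
    simp [om]
    field_simp

theorem cr_inj {z w : ℂ} (h : cr z = cr w) : z = w := by
  have h3 := sqrt3_pos
  have h1 := congrArg Complex.re h
  have h2 := congrArg Complex.im h
  rw [cr_re, cr_re] at h1
  rw [cr_im, cr_im] at h2
  have h4 : z.im = w.im := by
    field_simp at h2
    linarith
  rw [h4] at h1
  exact Complex.ext (by linarith) h4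

/-- The fundamental parallelogram. -/
def par : Set ℂ := cr ⁻¹' (Complex.measurableEquivRealProd ⁻¹' (Set.Ico 0 1 ×ˢ Set.Ico 0 1))

theorem mem_par (z : ℂ) : z ∈ par ↔
    (0 ≤ (cr z).re ∧ (cr z).re < 1) ∧ (0 ≤ (cr z).im ∧ (cr z).im < 1) := Iff.rfl

theorem vol_par : volume par = ENNReal.ofReal (√3 / 2) := by
  have h3 := sqrt3_pos
  have hdet : LinearMap.det cr ≠ 0 := by rw [cr_det]; positivity
  rw [par, Measure.addHaar_preimage_linearMap _ hdet, cr_det,
    Complex.volume_preserving_equiv_real_prod.measure_preimage_equiv,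
    Measure.volume_eq_prod, Measure.prod_prod]
  simp only [Real.volume_Ico, sub_zero, ENNReal.ofReal_one, mul_one]
  congr 1
  rw [abs_of_pos (by positivity), inv_div]

theorem meas_par : MeasurableSet par := by
  have h : Measurable cr := (LinearMap.continuous_of_finiteDimensional cr).measurable
  exact h (Complex.measurableEquivRealProd.measurable (measurableSet_Ico.prod measurableSet_Ico))

theorem exists_unique_par (z : ℂ) : ∃ e, IsEis e ∧ e + z ∈ par ∧
    ∀ e', IsEis e' → e' + z ∈ par → e' = e := by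
  refine ⟨((-⌊(cr z).re⌋ : ℤ) : ℂ) + ((-⌊(cr z).im⌋ : ℤ) : ℂ) * om, ⟨_, _, rfl⟩, ?_, ?_⟩
  · rw [mem_par, map_add, cr_eis]
    simp only [Complex.add_re, Complex.add_im]
    have h1 := Int.floor_le (cr z).re
    have h2 := Int.lt_floor_add_one (cr z).re
    have h3 := Int.floor_le (cr z).im
    have h4 := Int.lt_floor_add_one (cr z).im
    push_cast
    refine ⟨⟨by linarith, by linarith⟩, ⟨by linarith, by linarith⟩⟩
  · rintro _ ⟨a, b, rfl⟩ h
    rw [mem_par, map_add, cr_eis] at h
    simp only [Complex.add_re, Complex.add_im] at h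
    obtain ⟨⟨h1, h2⟩, h3, h4⟩ := h
    have e1 : -⌊(cr z).re⌋ = a := by
      have : ⌊(cr z).re⌋ = -a := by
        rw [Int.floor_eq_iff]
        push_cast
        constructor <;> linarith
      rw [this, neg_neg]
    have e2 : -⌊(cr z).im⌋ = b := by
      have : ⌊(cr z).im⌋ = -b := by
        rw [Int.floor_eq_iff]
        push_cast
        constructor <;> linarith
      rw [this, neg_neg]
    rw [e1, e2]

/-- The lattice. -/
def latt (r : ℕ) : AddSubgroup (Fin r → ℂ) where
  carrier := {v | IsLat v}
  add_mem' h1 h2 i := (h1 i).add (h2 i)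
  zero_mem' _ := IsEis.zero
  neg_mem' h i := (h i).neg

theorem mem_latt {r : ℕ} {v : Fin r → ℂ} : v ∈ latt r ↔ IsLat v := Iff.rfl

instance (r : ℕ) : Countable (latt r) := by
  have h : Function.Surjective (fun c : Fin r → ℤ × ℤ =>
      (⟨fun i => ((c i).1 : ℂ) + (c i).2 * om, fun i => ⟨_, _, rfl⟩⟩ : latt r)) := by
    rintro ⟨v, hv⟩
    choose a b hab using (show ∀ i, ∃ a b : ℤ, v i = a + b * om from hv)
    refine ⟨fun i => (a i, b i), Subtype.ext (funext fun i => ?_)⟩
    exact (hab i).symm
  exact h.countable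

/-- The fundamental domain. -/
def dom (r : ℕ) : Set (Fin r → ℂ) := Set.univ.pi fun _ => par

theorem isDom (r : ℕ) : IsAddFundamentalDomain (latt r) (dom r) volume := by
  refine IsAddFundamentalDomain.mk' (MeasurableSet.univ_pi fun _ => meas_par).nullMeasurableSet
    fun x => ?_
  choose e he1 he2 he3 using fun i => exists_unique_par (x i)
  refine ⟨⟨e, he1⟩, ?_, ?_⟩
  · show e + x ∈ dom r
    exact fun i _ => he2 i
  · rintro ⟨v, hv⟩ h
    refine Subtype.ext (funext fun i => ?_)
    exact he3 i (v i) (hv i) (h i trivial)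

theorem vol_dom (r : ℕ) : volume (dom r) = ENNReal.ofReal (√3 / 2) ^ r := by
  rw [dom, MeasureTheory.volume_pi_pi]
  simp [vol_par]

end Pool.Agent.T6.H34.E6
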