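import Pool.Agent.T6.H34.E6.Tail
import Pool.Agent.T6.H34.EK.Main

/-!
# The cone conjecture for quotients by finite groups, in ranks in which the key inequality holds

The proofs are those of `Pool.Agent.T6.H34.EK`, with the key inequality as an assumption `Ok`.
-/

set_option autoImplicit false
set_option maxHeartbeats 400000

namespace Pool.Agent.T6.H34.E6

open Filter Topology
open Pool.Agent.T6.H34.EK hiding semiample_cls effective_cls nef_of_int eff_of_int Cp_le mem_Cp_iff nefCone_eq core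
open Pool.Agent.W594.SYZ2 (IsHermitian)
open Pool.Agent.R895 (Lat BlBundle act kum N1 N1s IsEis IsClass std frm kap Nf Dat cs_of_psd kap_pos
  kap_ne thB IsExt id_isExt exH exH_herm exH_int section_thB_zero
  lat exists_basis dat_of_isInt re_kap_div Normalizes
  differentiable_equiv cut_int exists_vectors exists_ker exists_lower isClosed_Nf
  frm_add frm_smul frm_sub frm_zero frm_herm std_dat std_herm std_int std_pos std_nonneg one_le_std
  re_natMul le_std form_frm N1_ext' kap_im_eis xi cone_of_scaled)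
open Pool.Agent.Y167 (AffGrp cone CData Pol Cp cone_ind cone_add cone_smul cone_sum cone_le
  mem_cone_self mem_cone_of_sum zero_mem_cone cone_cut cone_image cone_mono)
open Pool.Agent.Y167.CC (LinGrp Preserves IsFundDomain)

variable {n : ℕ} {G : Subgroup ((Fin n → ℂ) ≃ₗ[ℂ] (Fin n → ℂ))} {hG : PresLat G}
  {h : (Fin n → ℂ) → (Fin n → ℂ) → ℂ} [Fintype G]

variable [Nonempty (Fin n)]

theorem semiample_cls (hn : Ok n) (D : Dat h) (hi : Inv G h) (b : ℕ)
    (hp : ∀ v, v ≠ 0 → 0 < (h v v).re)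
    (hb : ∀ v, Lat v → v ≠ 0 → (b : ℝ) < (h v v).re) {y : NS (grp G hG)}
    (h1 : ∀ u w, frm (up y) u w = c0 G * h u w) (h2 : coef y = c0 G * b) :
    y ∈ semiample (grp G hG) :=
  ⟨_, cls_eq (D := D) (hi := hi) h1 h2, semiample_qB hG D.herm D.int hi
    (thB_semi (exH_id D b) (semiample_thB (ρ := id) (m := 1) hn D b hp hb))⟩

theorem effective_cls (hn : Ok n) (D : Dat h) (hi : Inv G h)
    (b : ℕ)
    (hb : (∀ v, v ≠ 0 → 0 < (h v v).re) ∧ (∀ v, Lat v → v ≠ 0 → (b : ℝ) ≤ (h v v).re) ∨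
      b = 0 ∧ ∀ v, 0 ≤ (h v v).re) {y : NS (grp G hG)}
    (h1 : ∀ u w, frm (up y) u w = c0 G * h u w) (h2 : coef y = c0 G * b) :
    ∃ N : ℕ, 1 ≤ N ∧ (N : ℝ) • y ∈ effective (grp G hG) := by
  have key : ∃ N : ℕ, 1 ≤ N ∧ ∃ s, ((thB 1 D.herm D.int b).pow N).IsSection s ∧ ∃ v, s v ≠ 0 := by
    rcases hb with ⟨hb1, hb2⟩ | ⟨rfl, hb⟩
    · exact thB_sec (exH_id D b)
        (section_thB (ρ := id) (m := 1) Function.injective_id hn D b hb1 hb2)
    · exact thB_sec (exH_id D 0) (section_thB_zero (ρ := id) (m := 1) D hb)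
  obtain ⟨N, hN, s, hs, h0⟩ := section_qB hG D.herm D.int hi key
  obtain ⟨L', hL', hc⟩ := pow_cls (cls_eq (D := D) (hi := hi) h1 h2) N
  refine ⟨N, hN, L', s, hc, ?_, h0⟩
  rw [hL']
  exact hs

/-- An integral class in the cone `NfQ` is nef. -/
theorem nef_of_int (hn : Ok n) {a : NS (grp G hG)} (ha : a ∈ LQ hG) (haN : a ∈ NfQ hG) :
    a ∈ nefCone (grp G hG) := by
  obtain ⟨y₀, -, hy1, hy2⟩ := exists_y₀ hG
  obtain ⟨D, k, hk⟩ := dat_of_LQ ha
  obtain ⟨b, hb⟩ := coef_nat haN hk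
  refine mem_closed (y := y₀) isClosed_closure fun k => subset_closure ?_
  set K : ℕ := k + 1 with hK
  have hKr : ((K : ℕ) : ℝ) = (k : ℝ) + 1 := by rw [hK]; push_cast; rfl
  have hK0 : (0 : ℝ) < K := by rw [hKr]; positivity
  have hcc := c0_real (G := G)
  have hc1 : (1 : ℝ) ≤ c0 G := by exact_mod_cast c0_pos (G := G)
  have D' : Dat fun u w => (K : ℂ) * frm (up a) u w + ((2 * c0 G : ℕ) : ℂ) * avg G std u w :=
    (D.natMul K).add ((avg_dat hG std_dat).natMul (2 * c0 G))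
  have hi' : Inv G fun u w => (K : ℂ) * frm (up a) u w + ((2 * c0 G : ℕ) : ℂ) * avg G std u w :=
    inv_comb (frm_inv a) (avg_inv std) _ _
  have hre : ∀ v, ((K : ℂ) * frm (up a) v v + ((2 * c0 G : ℕ) : ℂ) * avg G std v v).re =
      K * (frm (up a) v v).re + 2 * c0 G * (avg G std v v).re := by
    intro v
    rw [Complex.add_re, re_natMul, re_natMul]
    push_cast
    ring
  have hsa : (c0 G : ℝ) • ((K : ℝ) • a + y₀) ∈ semiample (grp G hG) := by
    refine semiample_cls hn D' hi' (K * b + c0 G) (fun v hv => ?_) (fun v hv hv0 => ?_)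
      (fun u w => ?_) ?_
    · rw [hre]
      have h1 := haN.1 v
      have h2 := std_pos hv
      have h3 := std_le_avg (G := G) v
      have h4 : 0 < (avg G std v v).re := lt_of_lt_of_le h2 h3
      positivity
    · rw [hre]
      have h1 := haN.2.2 v hv hv0
      rw [coef_up, hb] at h1
      have h2 := one_le_std hv hv0
      have h3 := std_le_avg (G := G) v
      have h4 : (K : ℝ) * b ≤ K * (frm (up a) v v).re := mul_le_mul_of_nonneg_left h1 hK0.le
      have h5 : (c0 G : ℝ) * 1 ≤ c0 G * (avg G std v v).re :=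
        mul_le_mul_of_nonneg_left (h2.trans h3) hcc.le
      push_cast
      nlinarith
    · rw [up_smul, up_add, up_smul, frm_smul, frm_add, frm_smul, hy1]
      push_cast
      ring
    · rw [coef_smul, coef_add, coef_smul, hb, hy2]
      push_cast
      ring
  have h1 := span_smul (span_self hsa) (t := 1 / (c0 G * K)) (by positivity)
  have h2 : (1 / (c0 G * (K : ℝ))) • (c0 G : ℝ) • ((K : ℝ) • a + y₀) =
      a + (1 / ((k : ℝ) + 1)) • y₀ := by
    rw [← hKr, smul_smul, smul_add, smul_smul]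
    have e1 : 1 / (c0 G * (K : ℝ)) * c0 G * K = 1 := by field_simp
    have e2 : 1 / (c0 G * (K : ℝ)) * c0 G = 1 / K := by field_simp
    rw [e1, e2, one_smul]
  rwa [h2] at h1

/-- An integral class in the cone `NfQ` is effective. -/
theorem eff_of_int (hn : Ok n) {a : NS (grp G hG)} (ha : a ∈ LQ hG)
    (haN : a ∈ NfQ hG) : a ∈ effCone (grp G hG) := by
  obtain ⟨D, k, hk⟩ := dat_of_LQ ha
  obtain ⟨b, hb⟩ := coef_nat haN hk
  have hcc := c0_real (G := G)
  have key : (∀ v, v ≠ 0 → 0 < (frm (up a) v v).re) ∧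
      (∀ v, Lat v → v ≠ 0 → (b : ℝ) ≤ (frm (up a) v v).re) ∨
        b = 0 ∧ ∀ v, 0 ≤ (frm (up a) v v).re := by
    by_cases hpd : ∀ v, v ≠ 0 → 0 < (frm (up a) v v).re
    · exact Or.inl ⟨hpd, fun v hv hv0 => by rw [← hb]; exact haN.2.2 v hv hv0⟩
    · push Not at hpd
      obtain ⟨v, hv, hv0⟩ := hpd
      obtain ⟨w, hw, hw0, hww⟩ := exists_ker D haN.1 hv (le_antisymm hv0 (haN.1 v))
      have h1 := haN.2.2 w hw hw0
      rw [coef_up, hb, hww] at h1
      refine Or.inr ⟨?_, haN.1⟩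
      have h2 : b ≤ 0 := by exact_mod_cast h1
      omega
  obtain ⟨N, hN, heff⟩ := effective_cls (G := G) (hG := hG) hn D (frm_inv a) b key
    (y := (c0 G : ℝ) • a)
    (fun u w => by rw [up_smul, frm_smul]; push_cast; ring) (by rw [coef_smul, hb])
  have hNr : (0 : ℝ) < N := by exact_mod_cast hN
  have h1 := span_smul (span_self heff) (t := 1 / (c0 G * N)) (by positivity)
  have h2 : (1 / (c0 G * (N : ℝ))) • (N : ℝ) • (c0 G : ℝ) • a = a := by
    rw [smul_smul, smul_smul]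
    have e1 : 1 / (c0 G * (N : ℝ)) * N * c0 G = 1 := by field_simp
    rw [e1, one_smul]
  rwa [h2] at h1

/-- The element of a cone of integral classes of `NfQ`. -/
theorem Cp_le (hn : Ok n) {x : NS (grp G hG)}
    (hx : x ∈ Cp (LQ hG) (NfQ hG)) : x ∈ nefCone (grp G hG) ∩ effCone (grp G hG) := by
  obtain ⟨S, hS, hx⟩ := hx
  exact ⟨cone_nef (fun a ha => nef_of_int hn (hS a ha).1 (hS a ha).2) hx,
    cone_span (fun a ha => eff_of_int hn (hS a ha).1 (hS a ha).2) hx⟩

theorem mem_Cp_iff (hn : Ok n) (x : NS (grp G hG)) :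
    x ∈ Cp (LQ hG) (NfQ hG) ↔ x ∈ nefCone (grp G hG) ∩ effCone (grp G hG) :=
  ⟨fun h => Cp_le hn h, fun h => Cp_of_up
    ((Pool.Agent.T6.H34.E6.mem_Cp_iff' (id_isExt n) Function.injective_id hn (up x)).2
      ⟨up_nef h.1, up_eff h.2⟩)⟩

/-- The nef cone. -/
theorem nefCone_eq (hn : Ok n) : nefCone (grp G hG) = NfQ hG := by
  refine Set.Subset.antisymm nefCone_le fun x hx => ?_
  obtain ⟨y₀, hy0, hy1, hy2⟩ := exists_y₀ hG
  have hcc := c0_real (G := G)
  have hre : ∀ v : Fin n → ℂ, (frm (up y₀) v v).re = c0 G * (2 * (avg G std v v).re) := by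
    intro v
    rw [hy1, re_twice]
  have hyN : y₀ ∈ NfQ hG := by
    refine ⟨fun v => ?_, by rw [coef_up, hy2]; exact hcc.le, fun v hv hv0 => ?_⟩
    · rw [hre]
      have h1 := std_nonneg v
      have h2 := std_le_avg (G := G) v
      have h3 : 0 ≤ (avg G std v v).re := h1.trans h2
      positivity
    · rw [hre, coef_up, hy2]
      have h1 := one_le_std hv hv0
      have h2 := std_le_avg (G := G) v
      nlinarith
  refine mem_closed (y := y₀) isClosed_closure fun k => ?_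
  have hk : (0 : ℝ) < 1 / ((k : ℝ) + 1) := by positivity
  have h1 : up (x + (1 / ((k : ℝ) + 1)) • y₀) ∈ Cp (AddSubgroup.closure
      (Pool.Agent.R895.integral (kum (Fin n) 1)
        (LinearMap.id : (Fin n → ℂ) →ₗ[ℂ] (Fin n → ℂ)))) (Nf 1 LinearMap.id) := by
    have h0 : x + (1 / ((k : ℝ) + 1)) • y₀ ∈ NfQ hG := NfQ_add hx (NfQ_smul hk.le hyN)
    rw [mem_NfQ] at h0
    refine Pool.Agent.R895.Cp_of_pd (id_isExt n) Function.injective_id
      h0 ⟨1 / ((k : ℝ) + 1) * (c0 G * 2), by positivity, fun v => ?_⟩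
    rw [up_add, up_smul, frm_add, Complex.add_re, frm_smul, Complex.re_ofReal_mul, hre]
    have h2 := hx.1 v
    have h3 := std_le_avg (G := G) v
    have h4 : 1 / ((k : ℝ) + 1) * (c0 G * 2) * (std v v).re ≤
        1 / ((k : ℝ) + 1) * (c0 G * 2) * (avg G std v v).re :=
      mul_le_mul_of_nonneg_left h3 (by positivity)
    linarith
  obtain ⟨S, hS, h2⟩ := Cp_of_up h1
  exact cone_nef (fun a ha => nef_of_int hn (hS a ha).1 (hS a ha).2) h2

omit [Nonempty (Fin n)] in
/-- **The cone conjecture**, general form. -/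
theorem core (hn : Ok n) (𝒢 : LinGrp (NS (grp G hG)))
    (h1 : Preserves 𝒢 (integral (grp G hG)))
    (h2 : Preserves 𝒢 (nefCone (grp G hG) ∩ effCone (grp G hG)))
    (h3 : ∀ g u, IsPb hG g u → g ∈ 𝒢) :
    ∃ S : Finset (NS (grp G hG)), ↑S ⊆ integral (grp G hG) ∧
      cone S ⊆ nefCone (grp G hG) ∩ effCone (grp G hG) ∧
      IsFundDomain 𝒢 (nefCone (grp G hG) ∩ effCone (grp G hG)) (cone S) := by
  classical
  have hn0 := hn.two
  have hne : Nonempty (Fin n) := ⟨⟨0, by omega⟩⟩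
  obtain ⟨y₀, hy0, hy1, hy2⟩ := exists_y₀ hG
  obtain ⟨Y, D⟩ := exists_cdata (by omega) hy0 hy1 hy2
  obtain ⟨F₁, hF₁, hcov⟩ := covering hG
  have hcc := c0_real (G := G)
  have h𝒢L : ∀ g ∈ 𝒢, ∀ x ∈ LQ hG, g x ∈ LQ hG := fun g hg x hx => closure_map (h1 g hg) hx
  have hre : ∀ v : Fin n → ℂ, (frm (up y₀) v v).re = c0 G * (2 * (avg G std v v).re) := by
    intro v
    rw [hy1, re_twice]
  have hpd : ∀ (t : ℝ) (x : NS (grp G hG)), 0 < t → x - t • y₀ ∈ NfQ hG →
      x ∈ NfQ hG ∧ ∃ t : ℝ, 0 < t ∧ ∀ v, t * (std v v).re ≤ (frm (up x) v v).re := by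
    intro t x ht hx
    have h4 : x = (x - t • y₀) + t • y₀ := by abel
    refine ⟨?_, t * (c0 G * 2), by positivity, fun v => ?_⟩
    · rw [h4]
      exact NfQ_add hx (NfQ_smul ht.le D.y_N)
    · rw [h4, up_add, up_smul, frm_add, Complex.add_re, frm_smul, Complex.re_ofReal_mul, hre]
      have h5 := hx.1 v
      have h6 := std_le_avg (G := G) v
      have h7 : t * (c0 G * 2) * (std v v).re ≤ t * (c0 G * 2) * (avg G std v v).re :=
        mul_le_mul_of_nonneg_left h6 (by positivity)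
      linarith
  have hadd : ∀ x ∈ NfQ hG, ∀ t : ℝ, 0 < t →
      x + t • y₀ ∈ nefCone (grp G hG) ∩ effCone (grp G hG) := by
    intro x hx t ht
    obtain ⟨k1, k2⟩ := hpd t (x + t • y₀) ht (by rwa [add_sub_cancel_right])
    refine Cp_le hn (Cp_of_up ?_)
    rw [mem_NfQ] at k1
    exact Pool.Agent.R895.Cp_of_pd (Pool.Agent.R895.id_isExt n) Function.injective_id k1 k2
  have h𝒢N : ∀ g ∈ 𝒢, ∀ x ∈ NfQ hG, g x ∈ NfQ hG := by
    intro g hg x hx
    refine mem_closed (y := g y₀) isClosed_NfQ fun n => ?_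
    have h4 := h2 g hg _ (hadd x hx (1 / ((n : ℝ) + 1)) (by positivity))
    rw [map_add, map_smul] at h4
    exact nefCone_le h4.1
  obtain ⟨S, hS1, hS2, hS3⟩ := D.domain 𝒢 h𝒢L h𝒢N F₁ hF₁ (by
    rintro x ⟨t, ht, hx⟩
    obtain ⟨k1, k2⟩ := hpd t x ht hx
    obtain ⟨g, u, hg, hgx⟩ := hcov x k1 k2
    exact ⟨g, h3 g u hg, hgx⟩)
  have hcone : ∀ x, x ∈ cone (S.image fun a => (c0 G : ℝ) • a) ↔ x ∈ cone S := by
    intro x
    constructor
    · refine fun h => cone_le (fun a ha => ?_) h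
      obtain ⟨a', ha', rfl⟩ := Finset.mem_image.1 ha
      exact cone_smul (mem_cone_self ha') hcc.le
    · refine fun h => cone_le (fun a ha => ?_) h
      exact cone_of_scaled hcc (Finset.mem_image_of_mem (fun a => (c0 G : ℝ) • a) ha)
  have hcone' : cone (S.image fun a => (c0 G : ℝ) • a) = cone S := Set.ext hcone
  refine ⟨S.image fun a => (c0 G : ℝ) • a, ?_, ?_, ?_, ?_⟩
  · intro a ha
    obtain ⟨a', ha', rfl⟩ := Finset.mem_image.1 ha
    exact c0_int (hS1 a' ha').1 (hS1 a' ha').2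
  · rw [hcone']
    intro x hx
    exact Cp_le hn ⟨S, hS1, hx⟩
  · ext x
    rw [← mem_Cp_iff hn, hS2, hcone', Set.mem_iUnion₂]
    constructor
    · rintro ⟨g, hg, hgx⟩
      exact ⟨g⁻¹, 𝒢.inv_mem hg, g x, hgx, g.symm_apply_apply x⟩
    · rintro ⟨g, hg, y, hy, rfl⟩
      refine ⟨g⁻¹, 𝒢.inv_mem hg, ?_⟩
      have : (g⁻¹ : NS (grp G hG) ≃ₗ[ℝ] NS (grp G hG)) (g y) = y := g.symm_apply_apply y
      rwa [this]
  · intro g hg hg1
    rw [hcone', Set.eq_empty_iff_forall_notMem]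
    obtain ⟨φ, hφ0, hφ1, hφ2⟩ := hS3 g hg hg1
    rintro x ⟨hx, y, hy, rfl⟩
    have h4 := hφ2 y hy
    obtain ⟨w, hw⟩ : ∃ w, 0 < φ w := by
      by_contra hcon
      push Not at hcon
      apply hφ0
      ext w
      have e1 := hcon w
      have e2 := hcon (-w)
      rw [map_neg] at e2
      change φ w = 0
      linarith
    have hcont : Continuous fun t : ℝ => g y - t • w := by fun_prop
    have hmem : ∀ᶠ t : ℝ in 𝓝 0, g y - t • w ∈ interior (cone S) := by
      apply hcont.continuousAt.eventually_mem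
      rw [zero_smul, sub_zero]
      exact isOpen_interior.mem_nhds hx
    obtain ⟨ε, hε, hball⟩ := Metric.eventually_nhds_iff.1 hmem
    have h5 := interior_subset (hball (y := ε / 2) (by
      rw [Real.dist_eq, sub_zero, abs_of_pos (by linarith)]
      linarith))
    have h6 := hφ1 _ h5
    rw [map_sub, map_smul, smul_eq_mul] at h6
    have h7 : 0 < ε / 2 * φ w := by positivity
    linarith

end Pool.Agent.T6.H34.E6
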