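import Mathlib

/-!
# An inequality for two points in the plane

`X_j`, `N_j` are the scalar products of two points of the plane with the vertices of an equilateral
triangle.
-/

set_option autoImplicit false
set_option maxHeartbeats 400000

namespace Pool.Agent.T6.H34.E6

/-- The inequality for ordered coordinates. -/
theorem hexa_core {A X1 X2 B C D S : ℝ} (hX : A + X1 + X2 = 0) (hN : B + C + D = 0)
    (h1 : X1 ≤ A) (h2 : X2 ≤ A) (h3 : -(1 / 2) ≤ X1) (h4 : -(1 / 2) ≤ X2) (h5 : C ≤ B) (h6 : D ≤ C)
    (h7 : -(1 / 2) ≤ D) (h8 : B ≤ 1 / 2) (s1 : 3 * A ≤ S) (s2 : 3 * B ≤ S)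
    (s3 : 2 * A + X1 + (B - D) ≤ S) (s5 : 2 * A + X2 + (C - D) ≤ S) :
    A ^ 2 + X1 ^ 2 + X2 ^ 2 + 2 * (B ^ 2 + C ^ 2 + D ^ 2) ≤ S := by
  obtain rfl : X2 = -A - X1 := by linarith
  obtain rfl : C = -B - D := by linarith
  have a1 := sub_nonneg.2 h1
  have a2 := sub_nonneg.2 h2
  have a3 : 0 ≤ X1 + 1 / 2 := by linarith
  have a4 : 0 ≤ -A - X1 + 1 / 2 := by linarith
  have a5 := sub_nonneg.2 h5
  have a6 := sub_nonneg.2 h6
  have a7 : 0 ≤ D + 1 / 2 := by linarith
  have a8 := sub_nonneg.2 h8
  have b1 := sub_nonneg.2 s1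
  have b2 := sub_nonneg.2 s2
  have b3 := sub_nonneg.2 s3
  have b5 := sub_nonneg.2 s5
  have p1 := mul_nonneg a1 b5
  have p2 := mul_nonneg a2 b1
  have p3 := mul_nonneg a5 a8
  have p4 := mul_nonneg a4 b5
  have p5 := mul_nonneg a2 a8
  have p6 := mul_nonneg a3 b3
  have p7 := mul_nonneg a4 b2
  have p8 := mul_nonneg a1 a3
  have p9 := mul_nonneg a2 b3
  have p10 := mul_nonneg a6 a7
  linarith only [b5, p1, p2, p3, p4, p5, p6, p7, p8, p9, p10]

/-- The general case. -/
theorem hexa {X0 X1 X2 N0 N1 N2 M0 M1 M2 : ℝ} (hX : X0 + X1 + X2 = 0) (hN : N0 + N1 + N2 = 0)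
    (x0 : -(1 / 2) ≤ X0) (x1 : -(1 / 2) ≤ X1) (x2 : -(1 / 2) ≤ X2)
    (n0 : |N0| ≤ 1 / 2) (n1 : |N1| ≤ 1 / 2) (n2 : |N2| ≤ 1 / 2)
    (m00 : X0 + N0 ≤ M0) (m01 : X1 + N1 ≤ M0) (m02 : X2 + N2 ≤ M0)
    (m10 : X0 + N2 ≤ M1) (m11 : X1 + N0 ≤ M1) (m12 : X2 + N1 ≤ M1)
    (m20 : X0 + N1 ≤ M2) (m21 : X1 + N2 ≤ M2) (m22 : X2 + N0 ≤ M2) :
    X0 ^ 2 + X1 ^ 2 + X2 ^ 2 + 2 * (N0 ^ 2 + N1 ^ 2 + N2 ^ 2) ≤ M0 + M1 + M2 := by
  rw [abs_le] at n0 n1 n2
  -- the index of the largest `X_j`
  obtain hA | hA | hA : (X1 ≤ X0 ∧ X2 ≤ X0) ∨ (X0 ≤ X1 ∧ X2 ≤ X1) ∨ (X0 ≤ X2 ∧ X1 ≤ X2) := by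
    rcases le_total X0 X1 with u | u <;> rcases le_total X1 X2 with v | v <;>
      rcases le_total X0 X2 with w | w
    · exact Or.inr (Or.inr ⟨w, v⟩)
    · exact Or.inr (Or.inr ⟨by linarith, v⟩)
    · exact Or.inr (Or.inl ⟨u, v⟩)
    · exact Or.inr (Or.inl ⟨u, v⟩)
    · exact Or.inr (Or.inr ⟨w, v⟩)
    · exact Or.inl ⟨u, w⟩
    · exact Or.inl ⟨u, by linarith⟩
    · exact Or.inl ⟨u, w⟩
  all_goals
    obtain hB | hB | hB | hB | hB | hB : (N1 ≤ N0 ∧ N2 ≤ N1) ∨ (N2 ≤ N0 ∧ N1 ≤ N2) ∨
        (N2 ≤ N1 ∧ N0 ≤ N2) ∨ (N0 ≤ N1 ∧ N2 ≤ N0) ∨ (N0 ≤ N2 ∧ N1 ≤ N0) ∨ (N1 ≤ N2 ∧ N0 ≤ N1) := by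
      rcases le_total N0 N1 with u | u <;> rcases le_total N1 N2 with v | v <;>
        rcases le_total N0 N2 with w | w
      · exact Or.inr (Or.inr (Or.inr (Or.inr (Or.inr ⟨v, u⟩))))
      · exact Or.inr (Or.inr (Or.inr (Or.inr (Or.inr ⟨v, u⟩))))
      · exact Or.inr (Or.inr (Or.inl ⟨v, w⟩))
      · exact Or.inr (Or.inr (Or.inr (Or.inl ⟨u, w⟩)))
      · exact Or.inr (Or.inr (Or.inr (Or.inr (Or.inl ⟨w, u⟩))))
      · exact Or.inr (Or.inl ⟨w, v⟩)
      · exact Or.inl ⟨u, v⟩
      · exact Or.inl ⟨u, v⟩
  · have := @hexa_core X0 X1 X2 N0 N1 N2 (M0 + M1 + M2) (by linarith) (by linarith) (by linarith)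
      (by linarith) (by linarith) (by linarith) (by linarith) (by linarith) (by linarith)
      (by linarith) (by linarith) (by linarith) (by linarith) (by linarith)
    linarith
  · have := @hexa_core X0 X2 X1 N0 N2 N1 (M0 + M1 + M2) (by linarith) (by linarith) (by linarith)
      (by linarith) (by linarith) (by linarith) (by linarith) (by linarith) (by linarith)
      (by linarith) (by linarith) (by linarith) (by linarith) (by linarith)
    linarith
  · have := @hexa_core X0 X1 X2 N1 N2 N0 (M0 + M1 + M2) (by linarith) (by linarith) (by linarith)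
      (by linarith) (by linarith) (by linarith) (by linarith) (by linarith) (by linarith)
      (by linarith) (by linarith) (by linarith) (by linarith) (by linarith)
    linarith
  · have := @hexa_core X0 X2 X1 N1 N0 N2 (M0 + M1 + M2) (by linarith) (by linarith) (by linarith)
      (by linarith) (by linarith) (by linarith) (by linarith) (by linarith) (by linarith)
      (by linarith) (by linarith) (by linarith) (by linarith) (by linarith)
    linarith
  · have := @hexa_core X0 X1 X2 N2 N0 N1 (M0 + M1 + M2) (by linarith) (by linarith) (by linarith)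
      (by linarith) (by linarith) (by linarith) (by linarith) (by linarith) (by linarith)
      (by linarith) (by linarith) (by linarith) (by linarith) (by linarith)
    linarith
  · have := @hexa_core X0 X2 X1 N2 N1 N0 (M0 + M1 + M2) (by linarith) (by linarith) (by linarith)
      (by linarith) (by linarith) (by linarith) (by linarith) (by linarith) (by linarith)
      (by linarith) (by linarith) (by linarith) (by linarith) (by linarith)
    linarith
  · have := @hexa_core X1 X2 X0 N0 N1 N2 (M0 + M1 + M2) (by linarith) (by linarith) (by linarith)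
      (by linarith) (by linarith) (by linarith) (by linarith) (by linarith) (by linarith)
      (by linarith) (by linarith) (by linarith) (by linarith) (by linarith)
    linarith
  · have := @hexa_core X1 X0 X2 N0 N2 N1 (M0 + M1 + M2) (by linarith) (by linarith) (by linarith)
      (by linarith) (by linarith) (by linarith) (by linarith) (by linarith) (by linarith)
      (by linarith) (by linarith) (by linarith) (by linarith) (by linarith)
    linarith
  · have := @hexa_core X1 X2 X0 N1 N2 N0 (M0 + M1 + M2) (by linarith) (by linarith) (by linarith)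
      (by linarith) (by linarith) (by linarith) (by linarith) (by linarith) (by linarith)
      (by linarith) (by linarith) (by linarith) (by linarith) (by linarith)
    linarith
  · have := @hexa_core X1 X0 X2 N1 N0 N2 (M0 + M1 + M2) (by linarith) (by linarith) (by linarith)
      (by linarith) (by linarith) (by linarith) (by linarith) (by linarith) (by linarith)
      (by linarith) (by linarith) (by linarith) (by linarith) (by linarith)
    linarith
  · have := @hexa_core X1 X2 X0 N2 N0 N1 (M0 + M1 + M2) (by linarith) (by linarith) (by linarith)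
      (by linarith) (by linarith) (by linarith) (by linarith) (by linarith) (by linarith)
      (by linarith) (by linarith) (by linarith) (by linarith) (by linarith)
    linarith
  · have := @hexa_core X1 X0 X2 N2 N1 N0 (M0 + M1 + M2) (by linarith) (by linarith) (by linarith)
      (by linarith) (by linarith) (by linarith) (by linarith) (by linarith) (by linarith)
      (by linarith) (by linarith) (by linarith) (by linarith) (by linarith)
    linarith
  · have := @hexa_core X2 X0 X1 N0 N1 N2 (M0 + M1 + M2) (by linarith) (by linarith) (by linarith)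
      (by linarith) (by linarith) (by linarith) (by linarith) (by linarith) (by linarith)
      (by linarith) (by linarith) (by linarith) (by linarith) (by linarith)
    linarith
  · have := @hexa_core X2 X1 X0 N0 N2 N1 (M0 + M1 + M2) (by linarith) (by linarith) (by linarith)
      (by linarith) (by linarith) (by linarith) (by linarith) (by linarith) (by linarith)
      (by linarith) (by linarith) (by linarith) (by linarith) (by linarith)
    linarith
  · have := @hexa_core X2 X0 X1 N1 N2 N0 (M0 + M1 + M2) (by linarith) (by linarith) (by linarith)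
      (by linarith) (by linarith) (by linarith) (by linarith) (by linarith) (by linarith)
      (by linarith) (by linarith) (by linarith) (by linarith) (by linarith)
    linarith
  · have := @hexa_core X2 X1 X0 N1 N0 N2 (M0 + M1 + M2) (by linarith) (by linarith) (by linarith)
      (by linarith) (by linarith) (by linarith) (by linarith) (by linarith) (by linarith)
      (by linarith) (by linarith) (by linarith) (by linarith) (by linarith)
    linarith
  · have := @hexa_core X2 X0 X1 N2 N0 N1 (M0 + M1 + M2) (by linarith) (by linarith) (by linarith)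
      (by linarith) (by linarith) (by linarith) (by linarith) (by linarith) (by linarith)
      (by linarith) (by linarith) (by linarith) (by linarith) (by linarith)
    linarith
  · have := @hexa_core X2 X1 X0 N2 N1 N0 (M0 + M1 + M2) (by linarith) (by linarith) (by linarith)
      (by linarith) (by linarith) (by linarith) (by linarith) (by linarith) (by linarith)
      (by linarith) (by linarith) (by linarith) (by linarith) (by linarith)
    linarith

end Pool.Agent.T6.H34.E6
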