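import Pool.Agent.T6.H34.E6.Hexa
import Pool.Agent.R895.Eis

/-!
# The covering radius of a reduced lattice of rank two over the Eisenstein integers
-/

set_option autoImplicit false
set_option maxHeartbeats 400000

namespace Pool.Agent.T6.H34.E6

open Complex
open Pool.Agent.R895 (om IsEis om_sq sqrt3_sq normSq_ab exists_coord exists_near)

theorem pair_w {w0 w1 w2 g0 g1 g2 t p Yn : ℝ} (hw : w0 + w1 + w2 = 1)
    (w0p : 0 ≤ w0) (w1p : 0 ≤ w1) (w2p : 0 ≤ w2)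
    (hYn : Yn = w0 ^ 2 + w1 ^ 2 + w2 ^ 2 - w0 * w1 - w1 * w2 - w0 * w2)
    (hp0 : 0 ≤ p) (hp3 : p ≤ 1 / 3) (ht : 1 ≤ p + t)
    (g0p : 0 ≤ g0) (g1p : 0 ≤ g1) (g2p : 0 ≤ g2)
    (g0G : g0 < 1 / 2 + t * (Yn + 1 / 2 - 3 * w0))
    (g1G : g1 < 1 / 2 + t * (Yn + 1 / 2 - 3 * w1))
    (g2G : g2 < 1 / 2 + t * (Yn + 1 / 2 - 3 * w2))
    (hg : 3 * p ≤ g0 + g1 + g2) : False := by
  have hY0 : 0 ≤ Yn := by
    rw [hYn]; linarith [sq_nonneg (w0 - w1), sq_nonneg (w1 - w2), sq_nonneg (w0 - w2)]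
  have hwG : w0 * g0 + w1 * g1 + w2 * g2 < 1 / 2 - t * (Yn + 1 / 2) := by
    have e : w0 * (1 / 2 + t * (Yn + 1 / 2 - 3 * w0)) + w1 * (1 / 2 + t * (Yn + 1 / 2 - 3 * w1)) +
        w2 * (1 / 2 + t * (Yn + 1 / 2 - 3 * w2)) = 1 / 2 - t * (Yn + 1 / 2) := by
      obtain rfl : w2 = 1 - w0 - w1 := by linarith
      rw [hYn]; ring
    rw [← e]
    have l0 := mul_le_mul_of_nonneg_left g0G.le w0p
    have l1 := mul_le_mul_of_nonneg_left g1G.le w1p
    have l2 := mul_le_mul_of_nonneg_left g2G.le w2p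
    rcases (show 0 < w0 ∨ 0 < w1 ∨ 0 < w2 by
      by_contra h
      push Not at h
      linarith [h.1, h.2.1, h.2.2]) with h | h | h
    · have := mul_lt_mul_of_pos_left g0G h
      linarith
    · have := mul_lt_mul_of_pos_left g1G h
      linarith
    · have := mul_lt_mul_of_pos_left g2G h
      linarith
  clear g0G g1G g2G
  obtain ⟨ρ, hρ0, hρ2⟩ : ∃ ρ : ℝ, 0 ≤ ρ ∧ ρ ^ 2 = Yn := ⟨√Yn, Real.sqrt_nonneg _, Real.sq_sqrt hY0⟩
  have hb : 1 / 2 - t * (Yn + 1 / 2) ≤ p / 2 - (1 - p) * Yn := by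
    have := mul_nonneg (show 0 ≤ p + t - 1 by linarith) (show 0 ≤ Yn + 1 / 2 by linarith)
    linarith
  have hq : 2 * p * Yn ≤ (1 - p) * Yn := mul_le_mul_of_nonneg_right (by linarith) hY0
  have hs := mul_nonneg hp0 (sq_nonneg (2 * ρ - 1))
  have k0 : |3 * w0 - 1| ≤ 2 * ρ := by
    apply abs_le_of_sq_le_sq _ (by positivity)
    rw [mul_pow, hρ2, hYn]
    obtain rfl : w0 = 1 - w1 - w2 := by linarith
    linarith [sq_nonneg (w1 - w2)]
  have k1 : |3 * w1 - 1| ≤ 2 * ρ := by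
    apply abs_le_of_sq_le_sq _ (by positivity)
    rw [mul_pow, hρ2, hYn]
    obtain rfl : w1 = 1 - w0 - w2 := by linarith
    linarith [sq_nonneg (w0 - w2)]
  have k2 : |3 * w2 - 1| ≤ 2 * ρ := by
    apply abs_le_of_sq_le_sq _ (by positivity)
    rw [mul_pow, hρ2, hYn]
    obtain rfl : w2 = 1 - w0 - w1 := by linarith
    linarith [sq_nonneg (w0 - w1)]
  rw [abs_le] at k0 k1 k2
  clear hYn
  subst hρ2
  rcases le_total (2 * ρ) 1 with h | h
  · have c0 := mul_nonneg (show 0 ≤ w0 - (1 - 2 * ρ) / 3 by linarith) g0p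
    have c1 := mul_nonneg (show 0 ≤ w1 - (1 - 2 * ρ) / 3 by linarith) g1p
    have c2 := mul_nonneg (show 0 ≤ w2 - (1 - 2 * ρ) / 3 by linarith) g2p
    have c3 := mul_nonneg (show 0 ≤ 1 - 2 * ρ by linarith) (sub_nonneg.2 hg)
    linarith
  · have c0 := mul_nonneg w0p g0p
    have c1 := mul_nonneg w1p g1p
    have c2 := mul_nonneg w2p g2p
    have c3 := mul_nonneg hp0 (show 0 ≤ (2 * ρ - 1) * (2 * ρ + 1) by
      exact mul_nonneg (by linarith) (by linarith))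
    linarith

theorem pair_g {v0 v1 v2 α β G0 G1 G2 : ℝ} (hv : v0 + v1 + v2 = 1)
    (v0p : 0 ≤ v0) (v1p : 0 ≤ v1) (v2p : 0 ≤ v2)
    (n0 : |α - β / 2| ≤ 1 / 2) (n1 : |β - α / 2| ≤ 1 / 2) (n2 : |-(α + β) / 2| ≤ 1 / 2)
    (r0 : 0 < G0) (r1 : 0 < G1) (r2 : 0 < G2)
    {X P E0 E1 E2 : ℝ} (hX : X = (v0 - v2) ^ 2 - (v0 - v2) * (v1 - v2) + (v1 - v2) ^ 2)
    (hP : P = α ^ 2 - α * β + β ^ 2) (hE : E0 + E1 + E2 = 0)
    (h00 : 2 * ((3 * v0 - 1) / 2 + (α - β / 2)) - (X + P + E0) < G0)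
    (h10 : 2 * ((3 * v1 - 1) / 2 + (β - α / 2)) - (X + P + E0) < G0)
    (h20 : 2 * ((3 * v2 - 1) / 2 + (-(α + β) / 2)) - (X + P + E0) < G0)
    (h01 : 2 * ((3 * v0 - 1) / 2 + (-(α + β) / 2)) - (X + P + E1) < G1)
    (h11 : 2 * ((3 * v1 - 1) / 2 + (α - β / 2)) - (X + P + E1) < G1)
    (h21 : 2 * ((3 * v2 - 1) / 2 + (β - α / 2)) - (X + P + E1) < G1)
    (h02 : 2 * ((3 * v0 - 1) / 2 + (β - α / 2)) - (X + P + E2) < G2)
    (h12 : 2 * ((3 * v1 - 1) / 2 + (-(α + β) / 2)) - (X + P + E2) < G2)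
    (h22 : 2 * ((3 * v2 - 1) / 2 + (α - β / 2)) - (X + P + E2) < G2) :
    ∃ g0 g1 g2 : ℝ, 0 ≤ g0 ∧ 0 ≤ g1 ∧ 0 ≤ g2 ∧ g0 < G0 ∧ g1 < G1 ∧ g2 < G2 ∧
      3 * P ≤ g0 + g1 + g2 := by
  have hmax : ∀ a b c u G : ℝ, 2 * a - u < G → 2 * b - u < G → 2 * c - u < G → 0 < G →
      ∃ m g : ℝ, a ≤ m ∧ b ≤ m ∧ c ≤ m ∧ 0 ≤ g ∧ 2 * m - u ≤ g ∧ g < G := by
    intro a b c u G ha hb hc hG
    refine ⟨max a (max b c), max 0 (2 * max a (max b c) - u), le_max_left _ _,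
      (le_max_left _ _).trans (le_max_right _ _), (le_max_right _ _).trans (le_max_right _ _),
      le_max_left _ _, le_max_right _ _, max_lt hG ?_⟩
    rcases max_choice a (max b c) with h | h
    · rw [h]; exact ha
    · rw [h]
      rcases max_choice b c with h | h
      · rw [h]; exact hb
      · rw [h]; exact hc
  obtain ⟨m0, g0, m00, m01, m02, g0p, g0l, g0G⟩ := hmax _ _ _ _ _ h00 h10 h20 r0
  obtain ⟨m1, g1, m10, m11, m12, g1p, g1l, g1G⟩ := hmax _ _ _ _ _ h01 h11 h21 r1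
  obtain ⟨m2, g2, m20, m21, m22, g2p, g2l, g2G⟩ := hmax _ _ _ _ _ h02 h12 h22 r2
  refine ⟨g0, g1, g2, g0p, g1p, g2p, g0G, g1G, g2G, ?_⟩
  have hex := hexa (by linarith) (by ring) (by linarith) (by linarith)
    (by linarith) n0 n1 n2 m00 m01 m02 m10 m11 m12 m20 m21 m22
  have hXq : ((3 * v0 - 1) / 2) ^ 2 + ((3 * v1 - 1) / 2) ^ 2 + ((3 * v2 - 1) / 2) ^ 2 =
      3 / 2 * X := by
    rw [hX]
    obtain rfl : v2 = 1 - v0 - v1 := by linarith
    ring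
  have hNq : (α - β / 2) ^ 2 + (β - α / 2) ^ 2 + (-(α + β) / 2) ^ 2 = 3 / 2 * P := by
    rw [hP]; ring
  rw [hXq, hNq] at hex
  linarith only [hex, g0l, g1l, g2l, hE]

/-- A cube root of `1 / 3`: the vector from the vertex to the centre of a triangle. -/
noncomputable def kp : ℂ := -(1 + 2 * om) / 3

theorem normSq_kp : normSq kp = 1 / 3 := by
  have h : kp = ((-(1 / 3) : ℝ) : ℂ) + ((-(2 / 3) : ℝ) : ℂ) * om := by
    unfold kp; push_cast; ring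
  rw [h, normSq_ab]
  norm_num

/-- Every point of the plane lies in a triangle of the hexagonal lattice. -/
theorem tri (z : ℂ) : ∃ (c : ℂ) (s w0 w1 w2 : ℝ), s * s = 1 ∧ 0 ≤ w0 ∧ 0 ≤ w1 ∧ 0 ≤ w2 ∧
    w0 + w1 + w2 = 1 ∧ z = c + s * kp * (w0 + w1 * om + w2 * (-1 - om)) ∧
    IsEis (c + s * kp) ∧ IsEis (c + s * kp * om) ∧ IsEis (c + s * kp * (-1 - om)) := by
  obtain ⟨x, y, rfl⟩ := exists_coord z
  set u := Int.fract x with hu
  set v := Int.fract y with hv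
  have hx : x = ⌊x⌋ + u := by rw [hu]; exact (Int.floor_add_fract x).symm
  have hy : y = ⌊y⌋ + v := by rw [hv]; exact (Int.floor_add_fract y).symm
  have hu0 := Int.fract_nonneg x
  have hu1 := (Int.fract_lt_one x).le
  have hv0 := Int.fract_nonneg y
  have hv1 := (Int.fract_lt_one y).le
  rw [← hu] at hu0 hu1
  rw [← hv] at hv0 hv1
  clear_value u v
  set a : ℤ := ⌊x⌋ with ha
  set b : ℤ := ⌊y⌋ with hb
  clear_value a b
  subst hx hy
  have h := om_sq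
  rcases le_total v u with hvu | hvu
  · refine ⟨(a : ℂ) + b * om + (2 + om) / 3, -1, v, 1 - u, u - v, by norm_num, hv0, by linarith,
      by linarith, by ring, ?_, ⟨a + 1, b + 1, ?_⟩, ⟨a, b, ?_⟩, ⟨a + 1, b, ?_⟩⟩
    · unfold kp
      push_cast
      linear_combination (1 / 3 : ℂ) * (-2 * (1 - u) + 2 * (u - v)) * h
    · unfold kp
      push_cast
      ring
    · unfold kp
      push_cast
      linear_combination (2 / 3 : ℂ) * h
    · unfold kp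
      push_cast
      linear_combination (-2 / 3 : ℂ) * h
  · refine ⟨(a : ℂ) + b * om + (1 + 2 * om) / 3, 1, 1 - v, u, v - u, by norm_num, by linarith, hu0,
      by linarith, by ring, ?_, ⟨a, b, ?_⟩, ⟨a + 1, b + 1, ?_⟩, ⟨a, b + 1, ?_⟩⟩
    · unfold kp
      push_cast
      linear_combination (1 / 3 : ℂ) * (2 * u - 2 * (v - u)) * h
    · unfold kp
      push_cast
      ring
    · unfold kp
      push_cast
      linear_combination (-2 / 3 : ℂ) * h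
    · unfold kp
      push_cast
      linear_combination (2 / 3 : ℂ) * h

theorem nk {s : ℝ} (hs : s * s = 1) (P Q : ℝ) :
    normSq ((s : ℂ) * kp * ((P : ℂ) + (Q : ℂ) * om)) = 1 / 3 * (P ^ 2 - P * Q + Q ^ 2) := by
  rw [normSq_mul, normSq_mul, normSq_kp, normSq_ab, normSq_ofReal, hs]
  ring

/-- The covering radius, if `μ` lies in the Voronoi cell. -/
theorem pair_hex {t : ℝ} {μ : ℂ} (hμ : ∀ e, IsEis e → normSq μ ≤ normSq (μ - e))
    (hμ3 : normSq μ ≤ 1 / 3) (ht : 1 ≤ normSq μ + t) (ht1 : t ≤ 1) (x y : ℂ) :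
    ∃ a b, IsEis a ∧ IsEis b ∧
      normSq (x - a - b * μ) + t * normSq (y - b) ≤ 1 / 6 + t / 2 := by
  by_contra hcon
  push Not at hcon
  obtain ⟨α0, β0, hμ0⟩ := exists_coord μ
  have hN0 : normSq μ = α0 ^ 2 - α0 * β0 + β0 ^ 2 := by rw [hμ0, normSq_ab]
  have hvor : ∀ a b : ℤ, 0 ≤ (a : ℝ) ^ 2 - a * b + (b : ℝ) ^ 2 - (2 * a - b) * α0 - (2 * b - a) * β0 := by
    intro a b
    have h1 := hμ _ ⟨a, b, rfl⟩
    have e : μ - ((a : ℂ) + b * om) = ((α0 - a : ℝ) : ℂ) + ((β0 - b : ℝ) : ℂ) * om := by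
      rw [hμ0]; push_cast; ring
    rw [e, normSq_ab, hN0] at h1
    linarith
  have v1 := hvor 1 0
  have v2 := hvor (-1) 0
  have v3 := hvor 0 1
  have v4 := hvor 0 (-1)
  have v5 := hvor 1 1
  have v6 := hvor (-1) (-1)
  clear hvor
  push_cast at v1 v2 v3 v4 v5 v6
  obtain ⟨c, s, w0, w1, w2, hs, w0p, w1p, w2p, hw, hy, be0, be1, be2⟩ := tri y
  obtain ⟨c', s', v0, u1, u2, hs', v0p, u1p, u2p, hv, hx, ae0, ae1, ae2⟩ := tri (x - c * μ)
  obtain ⟨α, hα⟩ : ∃ α, α = -(s * s') * α0 := ⟨_, rfl⟩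
  obtain ⟨β, hβ⟩ : ∃ β, β = -(s * s') * β0 := ⟨_, rfl⟩
  have hss : s * s' = 1 ∨ s * s' = -1 := by
    have : (s * s') * (s * s') = 1 := by
      calc (s * s') * (s * s') = (s * s) * (s' * s') := by ring
        _ = 1 := by rw [hs, hs', one_mul]
    exact mul_self_eq_one_iff.1 this
  have hν : -((s : ℂ) * s') * μ = (α : ℂ) + (β : ℂ) * om := by
    rw [hμ0, hα, hβ]; push_cast; ring
  have hP : normSq μ = α ^ 2 - α * β + β ^ 2 := by
    rw [hN0, hα, hβ]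
    rcases hss with h | h <;> rw [h] <;> ring
  have hsc' : (s' : ℂ) * s' = 1 := by exact_mod_cast hs'
  have hcomb : ∀ J K : ℂ, x - (c' + s' * kp * J) - (c + s * kp * K) * μ =
      s' * kp * ((v0 + u1 * om + u2 * (-1 - om)) - J + ((α : ℂ) + (β : ℂ) * om) * K) := by
    intro J K
    rw [← hν]
    linear_combination hx + s * kp * K * μ * hsc'
  have hcomy : ∀ K : ℂ, y - (c + s * kp * K) =
      s * kp * ((w0 + w1 * om + w2 * (-1 - om)) - K) := by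
    intro K
    linear_combination hy
  have h := om_sq
  obtain ⟨Yn, hYn⟩ : ∃ Yn, Yn = w0 ^ 2 + w1 ^ 2 + w2 ^ 2 - w0 * w1 - w1 * w2 - w0 * w2 := ⟨_, rfl⟩
  have y0 : normSq (y - (c + s * kp * 1)) = 1 / 3 * (Yn + 2 - 3 * w0) := by
    have e : ((w0 : ℂ) + w1 * om + w2 * (-1 - om)) - 1 =
        ((w0 - w2 - (1) : ℝ) : ℂ) + ((w1 - w2 - (0) : ℝ) : ℂ) * om := by
      push_cast; ring
    rw [hcomy, e, nk hs, hYn]
    obtain rfl : w2 = 1 - w0 - w1 := by linarith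
    ring
  have y1 : normSq (y - (c + s * kp * om)) = 1 / 3 * (Yn + 2 - 3 * w1) := by
    have e : ((w0 : ℂ) + w1 * om + w2 * (-1 - om)) - om =
        ((w0 - w2 - (0) : ℝ) : ℂ) + ((w1 - w2 - (1) : ℝ) : ℂ) * om := by
      push_cast; ring
    rw [hcomy, e, nk hs, hYn]
    obtain rfl : w2 = 1 - w0 - w1 := by linarith
    ring
  have y2 : normSq (y - (c + s * kp * (-1 - om))) = 1 / 3 * (Yn + 2 - 3 * w2) := by
    have e : ((w0 : ℂ) + w1 * om + w2 * (-1 - om)) - (-1 - om) =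
        ((w0 - w2 - (-1) : ℝ) : ℂ) + ((w1 - w2 - (-1) : ℝ) : ℂ) * om := by
      push_cast; ring
    rw [hcomy, e, nk hs, hYn]
    obtain rfl : w2 = 1 - w0 - w1 := by linarith
    ring
  have h00 : 2 * ((3 * v0 - 1) / 2 + (α - β / 2)) - (((v0 - u2) ^ 2 - (v0 - u2) * (u1 - u2) +
      (u1 - u2) ^ 2) + (α ^ 2 - α * β + β ^ 2) + 2 * ((v0 - u2) * α + (u1 - u2) * β - ((v0 - u2) * β + (u1 - u2) * α) / 2)) <
      1 / 2 + t * (Yn + 1 / 2 - 3 * w0) := by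
    have h1 := hcon (c' + s' * kp * 1) (c + s * kp * 1) (by first | exact ae0 | simpa using ae0)
      (by first | exact be0 | simpa using be0)
    have e : ((v0 : ℂ) + u1 * om + u2 * (-1 - om)) - 1 + ((α : ℂ) + (β : ℂ) * om) * 1 =
        ((v0 - u2 - (1) + α : ℝ) : ℂ) + ((u1 - u2 - (0) + β : ℝ) : ℂ) * om := by
      push_cast
      ring
    have e2 : (v0 - u2 - (1) + α) ^ 2 - (v0 - u2 - (1) + α) * (u1 - u2 - (0) + β) +
        (u1 - u2 - (0) + β) ^ 2 = ((v0 - u2) ^ 2 - (v0 - u2) * (u1 - u2) + (u1 - u2) ^ 2) +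
        (α ^ 2 - α * β + β ^ 2) + 2 * ((v0 - u2) * α + (u1 - u2) * β - ((v0 - u2) * β + (u1 - u2) * α) / 2) + 1 - 2 * ((3 * v0 - 1) / 2 + (α - β / 2)) := by
      obtain rfl : u2 = 1 - v0 - u1 := by linarith
      ring
    rw [hcomb, e, nk hs', e2, y0] at h1
    linarith
  have h01 : 2 * ((3 * v0 - 1) / 2 + (-(α + β) / 2)) - (((v0 - u2) ^ 2 - (v0 - u2) * (u1 - u2) +
      (u1 - u2) ^ 2) + (α ^ 2 - α * β + β ^ 2) + 2 * ((v0 - u2) * (-β) + (u1 - u2) * (α - β) - ((v0 - u2) * (α - β) + (u1 - u2) * (-β)) / 2)) <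
      1 / 2 + t * (Yn + 1 / 2 - 3 * w1) := by
    have h1 := hcon (c' + s' * kp * 1) (c + s * kp * om) (by first | exact ae0 | simpa using ae0)
      (by first | exact be1 | simpa using be1)
    have e : ((v0 : ℂ) + u1 * om + u2 * (-1 - om)) - 1 + ((α : ℂ) + (β : ℂ) * om) * om =
        ((v0 - u2 - (1) + (-β) : ℝ) : ℂ) + ((u1 - u2 - (0) + (α - β) : ℝ) : ℂ) * om := by
      push_cast
      linear_combination (β : ℂ) * h
    have e2 : (v0 - u2 - (1) + (-β)) ^ 2 - (v0 - u2 - (1) + (-β)) * (u1 - u2 - (0) + (α - β)) +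
        (u1 - u2 - (0) + (α - β)) ^ 2 = ((v0 - u2) ^ 2 - (v0 - u2) * (u1 - u2) + (u1 - u2) ^ 2) +
        (α ^ 2 - α * β + β ^ 2) + 2 * ((v0 - u2) * (-β) + (u1 - u2) * (α - β) - ((v0 - u2) * (α - β) + (u1 - u2) * (-β)) / 2) + 1 - 2 * ((3 * v0 - 1) / 2 + (-(α + β) / 2)) := by
      obtain rfl : u2 = 1 - v0 - u1 := by linarith
      ring
    rw [hcomb, e, nk hs', e2, y1] at h1
    linarith
  have h02 : 2 * ((3 * v0 - 1) / 2 + (β - α / 2)) - (((v0 - u2) ^ 2 - (v0 - u2) * (u1 - u2) +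
      (u1 - u2) ^ 2) + (α ^ 2 - α * β + β ^ 2) + 2 * ((v0 - u2) * (β - α) + (u1 - u2) * (-α) - ((v0 - u2) * (-α) + (u1 - u2) * (β - α)) / 2)) <
      1 / 2 + t * (Yn + 1 / 2 - 3 * w2) := by
    have h1 := hcon (c' + s' * kp * 1) (c + s * kp * (-1 - om)) (by first | exact ae0 | simpa using ae0)
      (by first | exact be2 | simpa using be2)
    have e : ((v0 : ℂ) + u1 * om + u2 * (-1 - om)) - 1 + ((α : ℂ) + (β : ℂ) * om) * (-1 - om) =
        ((v0 - u2 - (1) + (β - α) : ℝ) : ℂ) + ((u1 - u2 - (0) + (-α) : ℝ) : ℂ) * om := by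
      push_cast
      linear_combination (-β : ℂ) * h
    have e2 : (v0 - u2 - (1) + (β - α)) ^ 2 - (v0 - u2 - (1) + (β - α)) * (u1 - u2 - (0) + (-α)) +
        (u1 - u2 - (0) + (-α)) ^ 2 = ((v0 - u2) ^ 2 - (v0 - u2) * (u1 - u2) + (u1 - u2) ^ 2) +
        (α ^ 2 - α * β + β ^ 2) + 2 * ((v0 - u2) * (β - α) + (u1 - u2) * (-α) - ((v0 - u2) * (-α) + (u1 - u2) * (β - α)) / 2) + 1 - 2 * ((3 * v0 - 1) / 2 + (β - α / 2)) := by
      obtain rfl : u2 = 1 - v0 - u1 := by linarith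
      ring
    rw [hcomb, e, nk hs', e2, y2] at h1
    linarith
  have h10 : 2 * ((3 * u1 - 1) / 2 + (β - α / 2)) - (((v0 - u2) ^ 2 - (v0 - u2) * (u1 - u2) +
      (u1 - u2) ^ 2) + (α ^ 2 - α * β + β ^ 2) + 2 * ((v0 - u2) * α + (u1 - u2) * β - ((v0 - u2) * β + (u1 - u2) * α) / 2)) <
      1 / 2 + t * (Yn + 1 / 2 - 3 * w0) := by
    have h1 := hcon (c' + s' * kp * om) (c + s * kp * 1) (by first | exact ae1 | simpa using ae1)
      (by first | exact be0 | simpa using be0)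
    have e : ((v0 : ℂ) + u1 * om + u2 * (-1 - om)) - om + ((α : ℂ) + (β : ℂ) * om) * 1 =
        ((v0 - u2 - (0) + α : ℝ) : ℂ) + ((u1 - u2 - (1) + β : ℝ) : ℂ) * om := by
      push_cast
      ring
    have e2 : (v0 - u2 - (0) + α) ^ 2 - (v0 - u2 - (0) + α) * (u1 - u2 - (1) + β) +
        (u1 - u2 - (1) + β) ^ 2 = ((v0 - u2) ^ 2 - (v0 - u2) * (u1 - u2) + (u1 - u2) ^ 2) +
        (α ^ 2 - α * β + β ^ 2) + 2 * ((v0 - u2) * α + (u1 - u2) * β - ((v0 - u2) * β + (u1 - u2) * α) / 2) + 1 - 2 * ((3 * u1 - 1) / 2 + (β - α / 2)) := by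
      obtain rfl : u2 = 1 - v0 - u1 := by linarith
      ring
    rw [hcomb, e, nk hs', e2, y0] at h1
    linarith
  have h11 : 2 * ((3 * u1 - 1) / 2 + (α - β / 2)) - (((v0 - u2) ^ 2 - (v0 - u2) * (u1 - u2) +
      (u1 - u2) ^ 2) + (α ^ 2 - α * β + β ^ 2) + 2 * ((v0 - u2) * (-β) + (u1 - u2) * (α - β) - ((v0 - u2) * (α - β) + (u1 - u2) * (-β)) / 2)) <
      1 / 2 + t * (Yn + 1 / 2 - 3 * w1) := by
    have h1 := hcon (c' + s' * kp * om) (c + s * kp * om) (by first | exact ae1 | simpa using ae1)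
      (by first | exact be1 | simpa using be1)
    have e : ((v0 : ℂ) + u1 * om + u2 * (-1 - om)) - om + ((α : ℂ) + (β : ℂ) * om) * om =
        ((v0 - u2 - (0) + (-β) : ℝ) : ℂ) + ((u1 - u2 - (1) + (α - β) : ℝ) : ℂ) * om := by
      push_cast
      linear_combination (β : ℂ) * h
    have e2 : (v0 - u2 - (0) + (-β)) ^ 2 - (v0 - u2 - (0) + (-β)) * (u1 - u2 - (1) + (α - β)) +
        (u1 - u2 - (1) + (α - β)) ^ 2 = ((v0 - u2) ^ 2 - (v0 - u2) * (u1 - u2) + (u1 - u2) ^ 2) +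
        (α ^ 2 - α * β + β ^ 2) + 2 * ((v0 - u2) * (-β) + (u1 - u2) * (α - β) - ((v0 - u2) * (α - β) + (u1 - u2) * (-β)) / 2) + 1 - 2 * ((3 * u1 - 1) / 2 + (α - β / 2)) := by
      obtain rfl : u2 = 1 - v0 - u1 := by linarith
      ring
    rw [hcomb, e, nk hs', e2, y1] at h1
    linarith
  have h12 : 2 * ((3 * u1 - 1) / 2 + (-(α + β) / 2)) - (((v0 - u2) ^ 2 - (v0 - u2) * (u1 - u2) +
      (u1 - u2) ^ 2) + (α ^ 2 - α * β + β ^ 2) + 2 * ((v0 - u2) * (β - α) + (u1 - u2) * (-α) - ((v0 - u2) * (-α) + (u1 - u2) * (β - α)) / 2)) <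
      1 / 2 + t * (Yn + 1 / 2 - 3 * w2) := by
    have h1 := hcon (c' + s' * kp * om) (c + s * kp * (-1 - om)) (by first | exact ae1 | simpa using ae1)
      (by first | exact be2 | simpa using be2)
    have e : ((v0 : ℂ) + u1 * om + u2 * (-1 - om)) - om + ((α : ℂ) + (β : ℂ) * om) * (-1 - om) =
        ((v0 - u2 - (0) + (β - α) : ℝ) : ℂ) + ((u1 - u2 - (1) + (-α) : ℝ) : ℂ) * om := by
      push_cast
      linear_combination (-β : ℂ) * h
    have e2 : (v0 - u2 - (0) + (β - α)) ^ 2 - (v0 - u2 - (0) + (β - α)) * (u1 - u2 - (1) + (-α)) +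
        (u1 - u2 - (1) + (-α)) ^ 2 = ((v0 - u2) ^ 2 - (v0 - u2) * (u1 - u2) + (u1 - u2) ^ 2) +
        (α ^ 2 - α * β + β ^ 2) + 2 * ((v0 - u2) * (β - α) + (u1 - u2) * (-α) - ((v0 - u2) * (-α) + (u1 - u2) * (β - α)) / 2) + 1 - 2 * ((3 * u1 - 1) / 2 + (-(α + β) / 2)) := by
      obtain rfl : u2 = 1 - v0 - u1 := by linarith
      ring
    rw [hcomb, e, nk hs', e2, y2] at h1
    linarith
  have h20 : 2 * ((3 * u2 - 1) / 2 + (-(α + β) / 2)) - (((v0 - u2) ^ 2 - (v0 - u2) * (u1 - u2) +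
      (u1 - u2) ^ 2) + (α ^ 2 - α * β + β ^ 2) + 2 * ((v0 - u2) * α + (u1 - u2) * β - ((v0 - u2) * β + (u1 - u2) * α) / 2)) <
      1 / 2 + t * (Yn + 1 / 2 - 3 * w0) := by
    have h1 := hcon (c' + s' * kp * (-1 - om)) (c + s * kp * 1) (by first | exact ae2 | simpa using ae2)
      (by first | exact be0 | simpa using be0)
    have e : ((v0 : ℂ) + u1 * om + u2 * (-1 - om)) - (-1 - om) + ((α : ℂ) + (β : ℂ) * om) * 1 =
        ((v0 - u2 - (-1) + α : ℝ) : ℂ) + ((u1 - u2 - (-1) + β : ℝ) : ℂ) * om := by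
      push_cast
      ring
    have e2 : (v0 - u2 - (-1) + α) ^ 2 - (v0 - u2 - (-1) + α) * (u1 - u2 - (-1) + β) +
        (u1 - u2 - (-1) + β) ^ 2 = ((v0 - u2) ^ 2 - (v0 - u2) * (u1 - u2) + (u1 - u2) ^ 2) +
        (α ^ 2 - α * β + β ^ 2) + 2 * ((v0 - u2) * α + (u1 - u2) * β - ((v0 - u2) * β + (u1 - u2) * α) / 2) + 1 - 2 * ((3 * u2 - 1) / 2 + (-(α + β) / 2)) := by
      obtain rfl : u2 = 1 - v0 - u1 := by linarith
      ring
    rw [hcomb, e, nk hs', e2, y0] at h1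
    linarith
  have h21 : 2 * ((3 * u2 - 1) / 2 + (β - α / 2)) - (((v0 - u2) ^ 2 - (v0 - u2) * (u1 - u2) +
      (u1 - u2) ^ 2) + (α ^ 2 - α * β + β ^ 2) + 2 * ((v0 - u2) * (-β) + (u1 - u2) * (α - β) - ((v0 - u2) * (α - β) + (u1 - u2) * (-β)) / 2)) <
      1 / 2 + t * (Yn + 1 / 2 - 3 * w1) := by
    have h1 := hcon (c' + s' * kp * (-1 - om)) (c + s * kp * om) (by first | exact ae2 | simpa using ae2)
      (by first | exact be1 | simpa using be1)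
    have e : ((v0 : ℂ) + u1 * om + u2 * (-1 - om)) - (-1 - om) + ((α : ℂ) + (β : ℂ) * om) * om =
        ((v0 - u2 - (-1) + (-β) : ℝ) : ℂ) + ((u1 - u2 - (-1) + (α - β) : ℝ) : ℂ) * om := by
      push_cast
      linear_combination (β : ℂ) * h
    have e2 : (v0 - u2 - (-1) + (-β)) ^ 2 - (v0 - u2 - (-1) + (-β)) * (u1 - u2 - (-1) + (α - β)) +
        (u1 - u2 - (-1) + (α - β)) ^ 2 = ((v0 - u2) ^ 2 - (v0 - u2) * (u1 - u2) + (u1 - u2) ^ 2) +
        (α ^ 2 - α * β + β ^ 2) + 2 * ((v0 - u2) * (-β) + (u1 - u2) * (α - β) - ((v0 - u2) * (α - β) + (u1 - u2) * (-β)) / 2) + 1 - 2 * ((3 * u2 - 1) / 2 + (β - α / 2)) := by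
      obtain rfl : u2 = 1 - v0 - u1 := by linarith
      ring
    rw [hcomb, e, nk hs', e2, y1] at h1
    linarith
  have h22 : 2 * ((3 * u2 - 1) / 2 + (α - β / 2)) - (((v0 - u2) ^ 2 - (v0 - u2) * (u1 - u2) +
      (u1 - u2) ^ 2) + (α ^ 2 - α * β + β ^ 2) + 2 * ((v0 - u2) * (β - α) + (u1 - u2) * (-α) - ((v0 - u2) * (-α) + (u1 - u2) * (β - α)) / 2)) <
      1 / 2 + t * (Yn + 1 / 2 - 3 * w2) := by
    have h1 := hcon (c' + s' * kp * (-1 - om)) (c + s * kp * (-1 - om)) (by first | exact ae2 | simpa using ae2)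
      (by first | exact be2 | simpa using be2)
    have e : ((v0 : ℂ) + u1 * om + u2 * (-1 - om)) - (-1 - om) + ((α : ℂ) + (β : ℂ) * om) * (-1 - om) =
        ((v0 - u2 - (-1) + (β - α) : ℝ) : ℂ) + ((u1 - u2 - (-1) + (-α) : ℝ) : ℂ) * om := by
      push_cast
      linear_combination (-β : ℂ) * h
    have e2 : (v0 - u2 - (-1) + (β - α)) ^ 2 - (v0 - u2 - (-1) + (β - α)) * (u1 - u2 - (-1) + (-α)) +
        (u1 - u2 - (-1) + (-α)) ^ 2 = ((v0 - u2) ^ 2 - (v0 - u2) * (u1 - u2) + (u1 - u2) ^ 2) +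
        (α ^ 2 - α * β + β ^ 2) + 2 * ((v0 - u2) * (β - α) + (u1 - u2) * (-α) - ((v0 - u2) * (-α) + (u1 - u2) * (β - α)) / 2) + 1 - 2 * ((3 * u2 - 1) / 2 + (α - β / 2)) := by
      obtain rfl : u2 = 1 - v0 - u1 := by linarith
      ring
    rw [hcomb, e, nk hs', e2, y2] at h1
    linarith
  have r : ∀ b, IsEis b → 1 / 6 + t / 2 < 1 / 3 + t * normSq (y - b) := by
    intro b hb
    obtain ⟨a, ha, h1⟩ := exists_near (x - b * μ)
    have h2 := hcon a b ha hb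
    have e : x - a - b * μ = x - b * μ - a := by ring
    rw [e] at h2
    linarith
  have r0 := r _ (show IsEis (c + s * kp * 1) by simpa using be0)
  have r1 := r _ be1
  have r2 := r _ be2
  rw [y0] at r0
  rw [y1] at r1
  rw [y2] at r2
  obtain ⟨g0, g1, g2, g0p, g1p, g2p, g0G, g1G, g2G, hg⟩ := pair_g hv v0p u1p u2p
    (α := α) (β := β) (by
      rw [hα, hβ, abs_le]
      rcases hss with h | h <;> rw [h] <;> constructor <;> linarith) (by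
      rw [hα, hβ, abs_le]
      rcases hss with h | h <;> rw [h] <;> constructor <;> linarith) (by
      rw [hα, hβ, abs_le]
      rcases hss with h | h <;> rw [h] <;> constructor <;> linarith)
    (G0 := 1 / 2 + t * (Yn + 1 / 2 - 3 * w0)) (G1 := 1 / 2 + t * (Yn + 1 / 2 - 3 * w1))
    (G2 := 1 / 2 + t * (Yn + 1 / 2 - 3 * w2)) (by linarith) (by linarith) (by linarith)
    rfl rfl (by ring) h00 h10 h20 h01 h11 h21 h02 h12 h22
  rw [← hP] at hg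
  exact pair_w hw w0p w1p w2p hYn (normSq_nonneg _) hμ3 ht g0p g1p g2p g0G g1G g2G hg

/-- The nearest Eisenstein integer. -/
theorem exists_nearest (μ : ℂ) : ∃ e0, IsEis e0 ∧ normSq (μ - e0) ≤ 1 / 3 ∧
    ∀ e, IsEis e → normSq (μ - e0) ≤ normSq (μ - e0 - e) := by
  obtain ⟨a, ha, h1⟩ := exists_near μ
  have hfin : {e : ℂ | IsEis e ∧ normSq (μ - e) ≤ 1 / 3}.Finite := by
    refine (Pool.Agent.R895.finite_eis (2 * normSq μ + 2 / 3)).subset ?_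
    rintro e ⟨he, h2⟩
    refine ⟨he, ?_⟩
    have h3 : normSq e ≤ 2 * normSq μ + 2 * normSq (μ - e) := by
      rw [normSq_apply, normSq_apply, normSq_apply, sub_re, sub_im]
      nlinarith [sq_nonneg (2 * μ.re - e.re), sq_nonneg (2 * μ.im - e.im)]
    linarith
  obtain ⟨e0, ⟨he0, h2⟩, hmin⟩ := Set.exists_min_image _ (fun e => normSq (μ - e)) hfin ⟨a, ha, h1⟩
  refine ⟨e0, he0, h2, fun e he => ?_⟩
  by_cases h3 : normSq (μ - (e0 + e)) ≤ 1 / 3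
  · have := hmin (e0 + e) ⟨he0.add he, h3⟩
    rwa [sub_sub]
  · push Not at h3
    rw [sub_sub]
    linarith

/-- **The covering radius of a reduced lattice of rank two.** -/
theorem pair {t : ℝ} {μ : ℂ} (h : ∀ e, IsEis e → 1 ≤ normSq (μ - e) + t) (x y : ℂ) :
    ∃ a b, IsEis a ∧ IsEis b ∧
      normSq (x - a - b * μ) + t * normSq (y - b) ≤ 1 / 6 + t / 2 := by
  rcases le_total t 1 with ht1 | ht1
  · obtain ⟨e0, he0, h1, h2⟩ := exists_nearest μ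
    obtain ⟨a, b, ha, hb, h3⟩ := pair_hex h2 h1 (h e0 he0) ht1 x y
    refine ⟨a - b * e0, b, ha.sub (hb.mul he0), hb, ?_⟩
    have e : x - (a - b * e0) - b * μ = x - a - b * (μ - e0) := by ring
    rw [e]
    exact h3
  · obtain ⟨b, hb, h1⟩ := exists_near y
    obtain ⟨a, ha, h2⟩ := exists_near (x - b * μ)
    refine ⟨a, b, ha, hb, ?_⟩
    have e : x - a - b * μ = x - b * μ - a := by ring
    rw [e]
    have h3 := mul_le_mul_of_nonneg_left h1 (show 0 ≤ t by linarith)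
    linarith

/-- The same with two scales. -/
theorem pair' {m0 m1 : ℝ} (h0 : 0 < m0) {μ : ℂ}
    (h : ∀ e, IsEis e → m0 ≤ m0 * normSq (μ - e) + m1) (x y : ℂ) :
    ∃ a b, IsEis a ∧ IsEis b ∧
      m0 * normSq (x - a - b * μ) + m1 * normSq (y - b) ≤ 1 / 6 * m0 + 1 / 2 * m1 := by
  obtain ⟨a, b, ha, hb, h1⟩ := pair (t := m1 / m0) (μ := μ) (fun e he => by
    have h2 := h e he
    rw [← sub_nonneg] at h2 ⊢
    have h3 : normSq (μ - e) + m1 / m0 - 1 = (m0 * normSq (μ - e) + m1 - m0) / m0 := by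
      field_simp
    rw [h3]
    exact div_nonneg h2 h0.le) x y
  refine ⟨a, b, ha, hb, ?_⟩
  have h2 := mul_le_mul_of_nonneg_left h1 h0.le
  have h3 : m0 * (normSq (x - a - b * μ) + m1 / m0 * normSq (y - b)) =
      m0 * normSq (x - a - b * μ) + m1 * normSq (y - b) := by field_simp
  have h4 : m0 * (1 / 6 + m1 / m0 / 2) = 1 / 6 * m0 + 1 / 2 * m1 := by field_simp
  rw [h3, h4] at h2
  exact h2

end Pool.Agent.T6.H34.E6
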