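import Pool.Agent.T6.H34.E6.Unim
import Pool.Agent.T6.H34.E6.Pair
import Pool.Agent.R895.LemB

/-!
# Short vectors outside a given submodule
-/

set_option autoImplicit false
set_option maxHeartbeats 400000

namespace Pool.Agent.T6.H34.E6

open Matrix
open Pool.Agent.R895 hiding V_ge V_ge' comb lemA_pd lemA_pd' lemA lemA'

variable {n : ℕ}

/-- The data of a reduced basis. -/
structure RedB (M : Matrix (Fin n) (Fin n) ℂ) (g : Matrix (Fin n) (Fin n) ℂ)
    (x : Fin n → Fin n → ℂ) (m : Fin n → ℝ) : Prop where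
  hg : IsGL g
  hm : ∀ i, 0 < m i
  hkz : ∀ i (v : Fin n → ℂ), IsLat v → (∃ k, i ≤ k ∧ v k ≠ 0) →
        m i ≤ ∑ j, if i ≤ j then m j * Complex.normSq (star (x j) ⬝ᵥ v) else 0
  hd : ∀ i, x i i = 1
  hz : ∀ i j, j < i → x i j = 0
  hdec : gᴴ * M * g = ∑ i, (m i : ℂ) • vecMulVec (x i) (star (x i))

theorem exists_redB (M : Matrix (Fin n) (Fin n) ℂ) (hM : Pd M) : ∃ g x m, RedB M g x m := by
  obtain ⟨g, x, m, hg, hm, hkz, hd, hz, hdec⟩ := exists_hkz n M hM
  exact ⟨g, x, m, hg, hm, hkz, hd, hz, hdec⟩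

variable {M g : Matrix (Fin n) (Fin n) ℂ} {x : Fin n → Fin n → ℂ} {m : Fin n → ℝ}

/-- The state: there is a vector outside `J` for which the sum over the indices `≥ j` is at
most `B`. -/
def St (g : Matrix (Fin n) (Fin n) ℂ) (x : Fin n → Fin n → ℂ) (m : Fin n → ℝ)
    (J : Set (Fin n → ℂ)) (j : ℕ) (B : ℝ) : Prop :=
  ∃ v : Fin n → ℂ, IsLat v ∧ g *ᵥ v ∉ J ∧
    ∑ i : Fin n, (if j ≤ (i : ℕ) then m i * Complex.normSq (star (x i) ⬝ᵥ v) else 0) ≤ B

theorem dot_single (h : RedB M g x m) (i j : Fin n) :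
    star (x i) ⬝ᵥ (Pi.single j 1 : Fin n → ℂ) = if j < i then 0 else star (x i j) := by
  rw [dotProduct_single, mul_one, Pi.star_apply]
  split_ifs with hij
  · rw [h.hz i j hij, star_zero]
  · rfl

theorem st_base (h : RedB M g x m) {J : Set (Fin n → ℂ)} (k : Fin n)
    (hk : g *ᵥ (Pi.single k 1) ∉ J) : St g x m J k (m k) := by
  refine ⟨Pi.single k 1, isLat_single k, hk, le_of_eq ?_⟩
  rw [Finset.sum_eq_single k]
  · rw [if_pos le_rfl, dot_single h, if_neg (lt_irrefl _), h.hd, star_one, Complex.normSq_one,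
      mul_one]
  · intro i _ hik
    split_ifs with h1
    · rw [dot_single h, if_pos (lt_of_le_of_ne (Fin.le_def.2 h1) (Ne.symm hik))]
      simp
    · rfl
  · intro h1; exact absurd (Finset.mem_univ _) h1

theorem notMem_add {J : Set (Fin n → ℂ)} (hJ : IsSub J) {v : Fin n → ℂ} (hv : g *ᵥ v ∉ J)
    {j : Fin n} (hj : g *ᵥ (Pi.single j 1) ∈ J) {a : ℂ} (ha : IsEis a) :
    g *ᵥ (v - a • Pi.single j 1) ∉ J := by
  intro h1
  apply hv
  have h2 := hJ.add _ h1 _ (hJ.smul a ha _ hj)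
  rw [← mulVec_smul, ← mulVec_add, sub_add_cancel] at h2
  exact h2

theorem isLat_sub {v : Fin n → ℂ} (hv : IsLat v) {a : ℂ} (ha : IsEis a) (j : Fin n) :
    IsLat (v - a • Pi.single j 1) := fun i => (hv i).sub (ha.mul (isLat_single j i))

theorem dot_sub (v : Fin n → ℂ) (a : ℂ) (i j : Fin n) :
    star (x i) ⬝ᵥ (v - a • Pi.single j 1) =
      star (x i) ⬝ᵥ v - a * (star (x i) ⬝ᵥ (Pi.single j 1 : Fin n → ℂ)) := by
  rw [dotProduct_sub, dotProduct_smul, smul_eq_mul]

theorem st_one (h : RedB M g x m) {J : Set (Fin n → ℂ)} (hJ : IsSub J) (j : Fin n) {B : ℝ}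
    (hj : g *ᵥ (Pi.single j 1) ∈ J) (hs : St g x m J (j + 1) B) :
    St g x m J j (B + 1 / 3 * m j) := by
  obtain ⟨v, hv, hvJ, hB⟩ := hs
  obtain ⟨a, ha, h1⟩ := exists_near (star (x j) ⬝ᵥ v)
  refine ⟨v - a • Pi.single j 1, isLat_sub hv ha j, notMem_add hJ hvJ hj ha, ?_⟩
  have key : ∀ i : Fin n, (if (j : ℕ) ≤ (i : ℕ) then
      m i * Complex.normSq (star (x i) ⬝ᵥ (v - a • Pi.single j 1)) else 0) ≤
      (if (j : ℕ) + 1 ≤ (i : ℕ) then m i * Complex.normSq (star (x i) ⬝ᵥ v) else 0) +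
        (if i = j then 1 / 3 * m j else 0) := by
    intro i
    rcases lt_trichotomy (i : ℕ) (j : ℕ) with h2 | h2 | h2
    · rw [if_neg (by omega), if_neg (by omega), if_neg (fun h => by rw [h] at h2; omega)]
      simp
    · obtain rfl : i = j := Fin.ext h2
      rw [if_pos le_rfl, if_neg (by omega), if_pos rfl, zero_add, dot_sub, dot_single h,
        if_neg (lt_irrefl _), h.hd, star_one, mul_one, mul_comm (1 / 3 : ℝ)]
      exact mul_le_mul_of_nonneg_left h1 (h.hm i).le
    · rw [if_pos (by omega), if_pos (by omega), if_neg (fun h => by rw [h] at h2; omega), dot_sub,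
        dot_single h, if_pos (Fin.lt_def.2 h2), mul_zero, sub_zero, add_zero]
  refine (Finset.sum_le_sum fun i _ => key i).trans ?_
  rw [Finset.sum_add_distrib, Finset.sum_ite_eq' Finset.univ j (fun _ => 1 / 3 * m j),
    if_pos (Finset.mem_univ _)]
  linarith

/-- Two consecutive basis vectors form a reduced pair. -/
theorem redpair (h : RedB M g x m) {j j' : Fin n} (hjj : (j : ℕ) + 1 = j') {e : ℂ} (he : IsEis e) :
    m j ≤ m j * Complex.normSq (star (x j j') - e) + m j' := by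
  have hne : j ≠ j' := by rintro rfl; omega
  have hlt : j < j' := Fin.lt_def.2 (by omega)
  have h1 := h.hkz j (Pi.single j' 1 - e • Pi.single j 1) (isLat_sub (isLat_single j') he j)
    ⟨j', hlt.le, by simp [hne.symm]⟩
  refine h1.trans (le_of_eq ?_)
  have key : ∀ i : Fin n, (if j ≤ i then m i *
      Complex.normSq (star (x i) ⬝ᵥ (Pi.single j' 1 - e • Pi.single j 1)) else 0) =
      (if i = j then m j * Complex.normSq (star (x j j') - e) else 0) +
      (if i = j' then m j' else 0) := by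
    intro i
    rcases lt_trichotomy i j with h2 | h2 | h2
    · rw [if_neg (not_le.2 h2), if_neg h2.ne, if_neg (h2.trans hlt).ne, add_zero]
    · rw [h2, if_pos le_rfl, if_pos rfl, if_neg hne, dot_sub, dot_single h, dot_single h,
        if_neg (not_lt.2 hlt.le), if_neg (lt_irrefl _), h.hd, star_one, mul_one, add_zero]
    · rw [if_pos h2.le, if_neg h2.ne', dot_sub, dot_single h, dot_single h, if_pos h2, mul_zero,
        sub_zero, zero_add]
      rcases eq_or_ne i j' with h3 | h3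
      · rw [h3, if_neg (lt_irrefl _), if_pos rfl, h.hd, star_one, Complex.normSq_one, mul_one]
      · have h4 : j' < i := Fin.lt_def.2 (by
          have h5 := Fin.lt_def.1 h2
          have h6 : (i : ℕ) ≠ j' := fun h => h3 (Fin.ext h)
          omega)
        rw [if_pos h4, if_neg h3, Complex.normSq_zero, mul_zero]
  rw [Finset.sum_congr rfl fun i _ => key i, Finset.sum_add_distrib, Finset.sum_ite_eq',
    Finset.sum_ite_eq', if_pos (Finset.mem_univ _), if_pos (Finset.mem_univ _)]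

theorem st_two (h : RedB M g x m) {J : Set (Fin n → ℂ)} (hJ : IsSub J) {j j' : Fin n}
    (hjj : (j : ℕ) + 1 = j') {B : ℝ} (hj : g *ᵥ (Pi.single j 1) ∈ J)
    (hj' : g *ᵥ (Pi.single j' 1) ∈ J) (hs : St g x m J (j + 2) B) :
    St g x m J j (B + (1 / 6 * m j + 1 / 2 * m j')) := by
  obtain ⟨v, hv, hvJ, hB⟩ := hs
  have hne : j ≠ j' := by rintro rfl; omega
  have hlt : j < j' := Fin.lt_def.2 (by omega)
  obtain ⟨a, b, ha, hb, h1⟩ := pair' (h.hm j) (μ := star (x j j')) (m1 := m j')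
    (fun e he => redpair h hjj he) (star (x j) ⬝ᵥ v) (star (x j') ⬝ᵥ v)
  refine ⟨v - a • Pi.single j 1 - b • Pi.single j' 1, isLat_sub (isLat_sub hv ha j) hb j',
    notMem_add hJ (notMem_add hJ hvJ hj ha) hj' hb, ?_⟩
  have key : ∀ i : Fin n, (if (j : ℕ) ≤ (i : ℕ) then m i *
      Complex.normSq (star (x i) ⬝ᵥ (v - a • Pi.single j 1 - b • Pi.single j' 1)) else 0) =
      (if (j : ℕ) + 2 ≤ (i : ℕ) then m i * Complex.normSq (star (x i) ⬝ᵥ v) else 0) +
        ((if i = j then m j * Complex.normSq (star (x j) ⬝ᵥ v - a - b * star (x j j')) else 0) +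
        (if i = j' then m j' * Complex.normSq (star (x j') ⬝ᵥ v - b) else 0)) := by
    intro i
    rcases lt_trichotomy i j with h2 | h2 | h2
    · have h3 := Fin.lt_def.1 h2
      rw [if_neg (by omega), if_neg (by omega), if_neg h2.ne, if_neg (h2.trans hlt).ne]
      simp
    · rw [h2, if_pos le_rfl, if_neg (by omega), if_pos rfl, if_neg hne, dot_sub, dot_sub,
        dot_single h, dot_single h, if_neg (lt_irrefl _), if_neg (not_lt.2 hlt.le), h.hd, star_one,
        mul_one]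
      simp
    · have h3 := Fin.lt_def.1 h2
      rw [if_pos (by omega), if_neg h2.ne', dot_sub, dot_sub, dot_single h, dot_single h, if_pos h2,
        mul_zero, sub_zero, zero_add]
      rcases eq_or_ne i j' with h4 | h4
      · rw [h4, if_neg (lt_irrefl _), if_neg (show ¬ (j : ℕ) + 2 ≤ (j' : ℕ) by omega), if_pos rfl,
          h.hd, star_one, mul_one]
        simp
      · have h6 : (i : ℕ) ≠ j' := fun h => h4 (Fin.ext h)
        have h5 : j' < i := Fin.lt_def.2 (by omega)
        rw [if_pos h5, if_pos (show (j : ℕ) + 2 ≤ (i : ℕ) by omega), if_neg h4, mul_zero, sub_zero,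
          add_zero]
  rw [Finset.sum_congr rfl fun i _ => key i, Finset.sum_add_distrib, Finset.sum_add_distrib,
    Finset.sum_ite_eq', Finset.sum_ite_eq', if_pos (Finset.mem_univ _), if_pos (Finset.mem_univ _)]
  linarith

theorem st_end (h : RedB M g x m) {J : Set (Fin n → ℂ)}
    (hMJ : ∀ v, IsLat v → v ∉ J → 1 ≤ q M v) {B : ℝ} (hs : St g x m J 0 B) : 1 ≤ B := by
  obtain ⟨v, hv, hvJ, hB⟩ := hs
  have h1 := hMJ _ (h.hg.mulVec hv) hvJ
  rw [← q_conj, h.hdec, q_dec] at h1
  simp only [Nat.zero_le, if_true] at hB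
  exact h1.trans hB

/-- Lovász' condition. -/
theorem lovasz (h : RedB M g x m) {j j' : Fin n} (hjj : (j : ℕ) + 1 = j') :
    2 / 3 * m j ≤ m j' := by
  obtain ⟨e, he, h1⟩ := exists_near (star (x j j'))
  have h2 := redpair h hjj he
  have h3 := mul_le_mul_of_nonneg_left h1 (h.hm j).le
  linarith

end Pool.Agent.T6.H34.E6
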