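import Pool.Agent.T6.H34.E6.Comb
import Pool.Agent.T6.H34.E6.Step

/-!
# The key inequality in rank six
-/

set_option autoImplicit false
set_option maxHeartbeats 400000

namespace Pool.Agent.T6.H34.E6

open Matrix
open Pool.Agent.R895 hiding V_ge V_ge' comb lemA_pd lemA_pd' lemA lemA'

theorem det6 {K : Matrix (Fin 6) (Fin 6) ℂ} (hK : Pd K) {h : ℝ} (hh : 0 < h)
    (hmin : ∀ w, IsLat w → w ≠ 0 → h ≤ q K w) : 705 / 100000 * h ^ 6 ≤ K.det.re := by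
  refine le_trans ?_ (blich (by norm_num) hK hh hmin)
  exact mul_le_mul_of_nonneg_right D6 (by positivity)

section

variable {M g : Matrix (Fin 6) (Fin 6) ℂ} {x : Fin 6 → Fin 6 → ℂ} {m : Fin 6 → ℝ}

theorem prod_m (R : RedB M g x m) : 705 / 100000 * m 0 ^ 6 ≤ ∏ i, m i := by
  refine le_trans ?_ (blich0 (r := 6) (by norm_num) R.hm R.hd R.hz (R.hm 0) fun v hv hv0 => ?_)
  · exact mul_le_mul_of_nonneg_right D6 (pow_nonneg (R.hm 0).le 6)
  · obtain ⟨k, hk⟩ := Function.ne_iff.1 hv0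
    have h1 := R.hkz 0 v hv ⟨k, Fin.zero_le k, hk⟩
    simpa [Q] using h1

theorem prod_m' (R : RedB M g x m) : 27 / 1000 * m 1 ^ 5 ≤ ∏ i : Fin 5, m i.succ := by
  refine le_trans ?_ (blich0 (r := 5) (by norm_num) (m := fun i => m i.succ)
    (x := fun i j => x i.succ j.succ) (fun i => R.hm _) (fun i => R.hd _)
    (fun i j hij => R.hz _ _ (by simpa using hij)) (R.hm 1) fun v hv hv0 => ?_)
  · exact mul_le_mul_of_nonneg_right D5 (pow_nonneg (R.hm 1).le 5)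
  · obtain ⟨k, hk⟩ := Function.ne_iff.1 hv0
    have h1 := R.hkz 1 (Fin.cons 0 v) (fun i => by
      refine Fin.cases ?_ (fun i => ?_) i
      · exact IsEis.zero
      · exact hv i) ⟨k.succ, by
        rw [Fin.le_def]
        simp, by simpa using hk⟩
    rw [Fin.sum_univ_succ] at h1
    have h2 : ¬ ((1 : Fin 6) ≤ 0) := by decide
    rw [if_neg h2, zero_add] at h1
    refine h1.trans (le_of_eq ?_)
    unfold Q
    refine Finset.sum_congr rfl fun i _ => ?_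
    have h3 : (1 : Fin 6) ≤ i.succ := by
      rw [Fin.le_def]
      simp
    rw [if_pos h3]
    congr 2
    simp [dotProduct, Fin.sum_univ_succ]

theorem lin_of (R : RedB M g x m) {K : Matrix (Fin 6) (Fin 6) ℂ} (hK : Pd K) {h : ℝ} (hh : 0 < h)
    (hmin : ∀ w, IsLat w → w ≠ 0 → h ≤ q K w) :
    Lin (m 0) (m 1) (m 2) (m 3) (m 4) (m 5) (hs 6 K 0) (hs 6 K 1) (hs 6 K 2) (hs 6 K 3) (hs 6 K 4)
      (hs 6 K 5) h := by
  have hD := det6 hK hh hmin
  have v0 := wsum (by norm_num) hK (w := fun i : Fin 6 => (2 / 3 : ℝ) ^ (i : ℕ))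
    (fun i => by positivity) (c := 95 / 100) hh hD (by
      simp [Fin.prod_univ_succ]
      norm_num) (by norm_num)
  have v0' := wsum (by norm_num) hK (w := ![1, 1, 2 / 3, 4 / 9, 8 / 27, 16 / 81])
    (fun i => by fin_cases i <;> norm_num) (c := 4 / 3) hh hD (by
      simp [Fin.prod_univ_succ]
      norm_num) (by norm_num)
  have v1 := Pool.Agent.T6.H41.K5.V5 hK.tl hh (min_tl hmin)
  have v2 := Pool.Agent.R895.V_ge' (by norm_num) (by norm_num) hK.tl.tl hh (min_tl (min_tl hmin))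
  have v3 := Pool.Agent.R895.V_ge' (by norm_num) (by norm_num) hK.tl.tl.tl hh
    (min_tl (min_tl (min_tl hmin)))
  have v4 := Pool.Agent.R895.V_ge' (by norm_num) (by norm_num) hK.tl.tl.tl.tl hh
    (min_tl (min_tl (min_tl (min_tl hmin))))
  have v5 := Pool.Agent.R895.V_ge (by norm_num) (by norm_num) hK.tl.tl.tl.tl.tl hh
    (min_tl (min_tl (min_tl (min_tl (min_tl hmin)))))
  have e1 : hs 6 K 1 = hs 5 (tl K) 0 := rfl
  have e2 : hs 6 K 2 = hs 5 (tl K) 1 := rfl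
  have e3 : hs 6 K 3 = hs 5 (tl K) 2 := rfl
  have e4 : hs 6 K 4 = hs 5 (tl K) 3 := rfl
  have e5 : hs 6 K 5 = hs 5 (tl K) 4 := rfl
  have f2 : hs 6 K 2 = hs 4 (tl (tl K)) 0 := rfl
  have f3 : hs 6 K 3 = hs 4 (tl (tl K)) 1 := rfl
  have f4 : hs 6 K 4 = hs 4 (tl (tl K)) 2 := rfl
  have f5 : hs 6 K 5 = hs 4 (tl (tl K)) 3 := rfl
  have g3 : hs 6 K 3 = hs 3 (tl (tl (tl K))) 0 := rfl
  have g4 : hs 6 K 4 = hs 3 (tl (tl (tl K))) 1 := rfl
  have g5 : hs 6 K 5 = hs 3 (tl (tl (tl K))) 2 := rfl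
  have k4 : hs 6 K 4 = hs 2 (tl (tl (tl (tl K)))) 0 := rfl
  have k5 : hs 6 K 5 = hs 2 (tl (tl (tl (tl K)))) 1 := rfl
  have l5 : hs 6 K 5 = hs 1 (tl (tl (tl (tl (tl K))))) 0 := rfl
  refine ⟨hh, R.hm 0, lovasz R rfl, lovasz R rfl, lovasz R rfl, lovasz R rfl, lovasz R rfl,
    ?_, ?_, ?_, ?_, ?_, ?_, ?_⟩
  · refine v0.trans (le_of_eq ?_)
    simp only [Fin.sum_univ_six]
    norm_num
  · refine v0'.trans (le_of_eq ?_)
    simp only [Fin.sum_univ_six]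
    show (1 : ℝ) * hs 6 K 0 + 1 * hs 6 K 1 + 2 / 3 * hs 6 K 2 + 4 / 9 * hs 6 K 3 +
      8 / 27 * hs 6 K 4 + 16 / 81 * hs 6 K 5 = _
    ring
  · have : 1 * h ≤ 101 / 100 * h := by linarith
    refine ((one_mul h).symm.le.trans (this.trans v1)).trans (le_of_eq ?_)
    simp only [Fin.sum_univ_five]
    rw [e1, e2, e3, e4, e5]
    norm_num
  · refine v2.trans (le_of_eq ?_)
    simp only [Fin.sum_univ_four]
    rw [f2, f3, f4, f5]
    norm_num
  · refine v3.trans (le_of_eq ?_)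
    simp only [Fin.sum_univ_three]
    rw [g3, g4, g5]
    norm_num
  · refine v4.trans (le_of_eq ?_)
    simp only [Fin.sum_univ_two]
    rw [k4, k5]
    norm_num
  · refine v5.trans (le_of_eq ?_)
    rw [l5]
    simp

/-- The arithmetic-geometric mean inequality for the products. -/
theorem agm (R : RedB M g x m) {K : Matrix (Fin 6) (Fin 6) ℂ} (hK : Pd K) {h : ℝ} (hh : 0 < h)
    (hmin : ∀ w, IsLat w → w ≠ 0 → h ≤ q K w) {P c : ℝ} (hP : P ≤ ∏ i, m i) (hc0 : 0 ≤ c)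
    (hc : c ^ 6 < 46656 * (705 / 100000) * P) : c * h ≤ ∑ i, m i * hs 6 K i := by
  have hD := det6 hK hh hmin
  have h1 := amgm 6 (by norm_num) (fun i => m i * hs 6 K i)
    fun i => mul_nonneg (R.hm i).le (hs_pos 6 K hK i).le
  rw [Finset.prod_mul_distrib, prod_hs 6 K hK] at h1
  have hP0 : 0 ≤ P := by
    have : 0 ≤ c ^ 6 := by positivity
    nlinarith
  have h2 : P * (705 / 100000 * h ^ 6) ≤ (∏ i, m i) * K.det.re :=
    mul_le_mul hP hD (by positivity) (Finset.prod_nonneg fun i _ => (R.hm i).le)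
  have hs0 : 0 ≤ ∑ i, m i * hs 6 K i :=
    Finset.sum_nonneg fun i _ => mul_nonneg (R.hm i).le (hs_pos 6 K hK i).le
  by_contra hcon
  push Not at hcon
  have h4 : (∑ i, m i * hs 6 K i) ^ 6 < (c * h) ^ 6 := pow_lt_pow_left₀ hcon hs0 (by norm_num)
  rw [div_pow] at h1
  push_cast at h1
  have h5 : 0 < h ^ 6 := by positivity
  have h6 := mul_lt_mul_of_pos_right hc h5
  rw [mul_pow] at h4
  norm_num at h1
  linarith

/-- The case distinction. -/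
theorem main6 (R : RedB M g x m) {K : Matrix (Fin 6) (Fin 6) ℂ} (hK : Pd K) {h : ℝ} (hh : 0 < h)
    (hmin : ∀ w, IsLat w → w ≠ 0 → h ≤ q K w) {J : Set (Fin 6 → ℂ)} (hJ : IsSub J)
    (hne : ∃ k, g *ᵥ (Pi.single k 1) ∉ J) (hMJ : ∀ v, IsLat v → v ∉ J → 1 ≤ q M v) :
    h ≤ ∑ i, m i * hs 6 K i := by
  have L := lin_of R hK hh hmin
  by_cases j0 : g *ᵥ (Pi.single 0 1) ∈ J
  swap
  · have h1 : 1 ≤ m 0 := st_end R hMJ (st_base R 0 j0)
    have h2 := agm R hK hh hmin (prod_m R) (c := 11 / 10 * m 0) (by linarith [R.hm 0]) (by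
      have h3 : 0 < m 0 ^ 6 := pow_pos (R.hm 0) 6
      rw [mul_pow]
      norm_num
      linarith)
    have h3 := mul_le_mul_of_nonneg_right h1 hh.le
    linarith
  by_cases j1 : g *ᵥ (Pi.single 1 1) ∈ J
  swap
  · have h1 : 1 ≤ m 1 + 1 / 3 * m 0 := st_end R hMJ (st_one R hJ 0 j0 (st_base R 1 j1))
    rcases le_total (m 0) (m 1) with hle | hle
    · have h2 := L.k1 hle h1
      rw [Fin.sum_univ_six]
      exact h2
    · have h2 : m 0 * (27 / 1000 * m 1 ^ 5) ≤ ∏ i, m i := by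
        rw [Fin.prod_univ_succ]
        exact mul_le_mul_of_nonneg_left (prod_m' R) (R.hm 0).le
      have h3 := agm1 (R.hm 0) L.c0 hle
      have h4 := agm R hK hh hmin h2 (c := m 1 + 1 / 3 * m 0) (by linarith) (by
        have h5 : 0 < m 0 * m 1 ^ 5 := mul_pos (R.hm 0) (pow_pos (R.hm 1) 5)
        have h6 : 46656 * (705 / 100000) * (m 0 * (27 / 1000 * m 1 ^ 5)) =
            (46656 * (705 / 100000) * (27 / 1000)) * (m 0 * m 1 ^ 5) := by ring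
        rw [h6]
        norm_num
        linarith)
      have h5 := mul_le_mul_of_nonneg_right h1 hh.le
      linarith
  by_cases j2 : g *ᵥ (Pi.single 2 1) ∈ J
  swap
  · have b := st_base R 2 j2
    have h1 := st_end R hMJ (st_one R hJ 0 j0 (st_one R hJ 1 j1 b))
    have h2 := st_end R hMJ (st_two R hJ (j := 0) (j' := 1) rfl j0 j1 b)
    rw [Fin.sum_univ_six]
    exact L.k2 h1 h2
  by_cases j3 : g *ᵥ (Pi.single 3 1) ∈ J
  swap
  · have b := st_base R 3 j3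
    have h1 := st_end R hMJ (st_two R hJ (j := 0) (j' := 1) rfl j0 j1 (st_one R hJ 2 j2 b))
    have h2 := st_end R hMJ (st_one R hJ 0 j0 (st_two R hJ (j := 1) (j' := 2) rfl j1 j2 b))
    rw [Fin.sum_univ_six]
    exact L.k3 h1 h2
  by_cases j4 : g *ᵥ (Pi.single 4 1) ∈ J
  swap
  · have b := st_two R hJ (j := 2) (j' := 3) rfl j2 j3 (st_base R 4 j4)
    have h1 := st_end R hMJ (st_two R hJ (j := 0) (j' := 1) rfl j0 j1 b)
    have h2 := st_end R hMJ (st_one R hJ 0 j0 (st_one R hJ 1 j1 b))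
    rw [Fin.sum_univ_six]
    exact L.k4 h1 h2
  by_cases j5 : g *ᵥ (Pi.single 5 1) ∈ J
  swap
  · have b := st_two R hJ (j := 3) (j' := 4) rfl j3 j4 (st_base R 5 j5)
    have h1 := st_end R hMJ (st_one R hJ 0 j0 (st_two R hJ (j := 1) (j' := 2) rfl j1 j2 b))
    rw [Fin.sum_univ_six]
    exact L.k5 h1
  obtain ⟨k, hk⟩ := hne
  exact absurd (by fin_cases k <;> assumption) hk

/-- The constant is larger than one if the form is at least one on all lattice vectors. -/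
theorem main6' (R : RedB M g x m) {K : Matrix (Fin 6) (Fin 6) ℂ} (hK : Pd K) {h : ℝ} (hh : 0 < h)
    (hmin : ∀ w, IsLat w → w ≠ 0 → h ≤ q K w) (hM1 : ∀ v, IsLat v → v ≠ 0 → 1 ≤ q M v) :
    11 / 10 * h ≤ ∑ i, m i * hs 6 K i := by
  have h1 : 1 ≤ m 0 := by
    refine st_end R (J := {0}) (fun v hv hv0 => hM1 v hv hv0) (st_base R 0 ?_)
    exact R.hg.mulVec_ne (single_ne 0)
  have h2 := agm R hK hh hmin (prod_m R) (c := 11 / 10 * m 0) (by linarith [R.hm 0]) (by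
    have h3 : 0 < m 0 ^ 6 := pow_pos (R.hm 0) 6
    rw [mul_pow]
    norm_num
    linarith)
  have h3 := mul_le_mul_of_nonneg_right h1 hh.le
  linarith

end

/-- The reduction to a basis. -/
theorem red6 {M H : Matrix (Fin 6) (Fin 6) ℂ} (hM : Pd M) (hH : Pd H) {h : ℝ}
    (hmin : ∀ w, IsLat w → w ≠ 0 → h ≤ q H w) :
    ∃ (g : Matrix (Fin 6) (Fin 6) ℂ) (x : Fin 6 → Fin 6 → ℂ) (m : Fin 6 → ℝ)
      (K : Matrix (Fin 6) (Fin 6) ℂ), RedB M g x m ∧ Pd K ∧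
      (∀ w, IsLat w → w ≠ 0 → h ≤ q K w) ∧ ∑ i, m i * hs 6 K i ≤ (M * H).trace.re := by
  obtain ⟨g, x, m, R⟩ := exists_redB M hM
  obtain ⟨g', h1, h2, h3⟩ := R.hg.inv
  have hg' : IsGL g' := ⟨h1, g, R.hg.ent, h3, h2⟩
  rw [trace_dec h2 R.hdec H]
  refine ⟨g, x, m, g' * H * g'ᴴ, R, ?_, ?_, ?_⟩
  · have hKe : g' * H * g'ᴴ = g'ᴴᴴ * H * g'ᴴ := by rw [conjTranspose_conjTranspose]
    rw [hKe]
    exact hH.conj hg'.conjTranspose
  · intro w hw hw0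
    have hKe : g' * H * g'ᴴ = g'ᴴᴴ * H * g'ᴴ := by rw [conjTranspose_conjTranspose]
    rw [hKe, q_conj]
    exact hmin _ (hg'.conjTranspose.mulVec hw) (hg'.conjTranspose.mulVec_ne hw0)
  · refine Finset.sum_le_sum fun i _ => mul_le_mul_of_nonneg_left ?_ (R.hm i).le
    refine hs_le 6 _ ?_ x R.hd R.hz i
    have hKe : g' * H * g'ᴴ = g'ᴴᴴ * H * g'ᴴ := by rw [conjTranspose_conjTranspose]
    rw [hKe]
    exact hH.conj hg'.conjTranspose

theorem lemA_pd {M H : Matrix (Fin 6) (Fin 6) ℂ} (hM : Pd M) (hH : Pd H) {h : ℝ}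
    (hh : 0 < h) (hmin : ∀ w, IsLat w → w ≠ 0 → h ≤ q H w) {J : Set (Fin 6 → ℂ)} (hJ : IsSub J)
    (hne : ∃ v, IsLat v ∧ v ∉ J) (hMJ : ∀ v, IsLat v → v ∉ J → 1 ≤ q M v) :
    h ≤ (M * H).trace.re := by
  obtain ⟨g, x, m, K, R, hK, hKmin, hle⟩ := red6 hM hH hmin
  refine le_trans (main6 R hK hh hKmin hJ ?_ hMJ) hle
  by_contra hcon
  push Not at hcon
  obtain ⟨v, hv, hvJ⟩ := hne
  obtain ⟨g', h1, h2, h3⟩ := R.hg.inv
  have hg' : IsGL g' := ⟨h1, g, R.hg.ent, h3, h2⟩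
  apply hvJ
  have h5 : v = ∑ k, (g' *ᵥ v) k • (g *ᵥ (Pi.single k 1)) := by
    have h6 : g' *ᵥ v = ∑ k, (g' *ᵥ v) k • (Pi.single k 1 : Fin 6 → ℂ) := by
      ext i
      simp [Finset.sum_apply, Pi.single_apply]
    have h7 : g *ᵥ (g' *ᵥ v) = v := by rw [mulVec_mulVec, h2, one_mulVec]
    calc v = g *ᵥ (g' *ᵥ v) := h7.symm
      _ = g *ᵥ (∑ k, (g' *ᵥ v) k • (Pi.single k 1 : Fin 6 → ℂ)) := by rw [← h6]
      _ = _ := by
          rw [mulVec_sum]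
          exact Finset.sum_congr rfl fun k _ => mulVec_smul _ _ _
  rw [h5]
  exact hJ.sum _ _ fun k _ => hJ.smul _ (hg'.mulVec hv k) _ (hcon k)

theorem lemA_pd' {M H : Matrix (Fin 6) (Fin 6) ℂ} (hM : Pd M)
    (hH : Pd H) {h : ℝ} (hh : 0 < h) (hmin : ∀ w, IsLat w → w ≠ 0 → h ≤ q H w)
    (hM1 : ∀ v, IsLat v → v ≠ 0 → 1 ≤ q M v) : 11 / 10 * h ≤ (M * H).trace.re := by
  obtain ⟨g, x, m, K, R, hK, hKmin, hle⟩ := red6 hM hH hmin
  exact (main6' R hK hh hKmin hM1).trans hle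

/-- **The key inequality.** -/
theorem lemA {M H : Matrix (Fin 6) (Fin 6) ℂ} (hM : Psd M) (hH : Pd H) {h : ℝ}
    (hh : 0 < h) (hmin : ∀ w, IsLat w → w ≠ 0 → h ≤ q H w) {J : Set (Fin 6 → ℂ)} (hJ : IsSub J)
    (hne : ∃ v, IsLat v ∧ v ∉ J) (hMJ : ∀ v, IsLat v → v ∉ J → 1 ≤ q M v) :
    h ≤ (M * H).trace.re := by
  refine trace_lim fun ε hε => ?_
  obtain ⟨h1, h2⟩ := hM.add_one hε
  refine lemA_pd h1 hH hh hmin hJ hne fun v hv hvJ => ?_
  rw [h2]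
  have h3 := hMJ v hv hvJ
  have h4 : 0 ≤ ∑ i, Complex.normSq (v i) := Finset.sum_nonneg fun i _ => Complex.normSq_nonneg _
  nlinarith

theorem lemA' {M H : Matrix (Fin 6) (Fin 6) ℂ} (hM : Psd M)
    (hH : Pd H) {h : ℝ} (hh : 0 < h) (hmin : ∀ w, IsLat w → w ≠ 0 → h ≤ q H w)
    (hM1 : ∀ v, IsLat v → v ≠ 0 → 1 ≤ q M v) : 11 / 10 * h ≤ (M * H).trace.re := by
  refine trace_lim fun ε hε => ?_
  obtain ⟨h1, h2⟩ := hM.add_one hε
  refine lemA_pd' h1 hH hh hmin fun v hv hv0 => ?_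
  rw [h2]
  have h3 := hM1 v hv hv0
  have h4 : 0 ≤ ∑ i, Complex.normSq (v i) := Finset.sum_nonneg fun i _ => Complex.normSq_nonneg _
  nlinarith

end Pool.Agent.T6.H34.E6
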