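import Pool.Agent.T6.H41.K5.Hkz

/-!
# Unimodular vectors and bases whose projections have shortest first vectors
-/

set_option autoImplicit false
set_option maxHeartbeats 400000

namespace Pool.Agent.T6.H34.E6

open Matrix
open Pool.Agent.R895
open Pool.Agent.T6.H41.K5 (exists_col)

variable {n : ℕ}

theorem isGL_trans {u : Fin n → ℂ} (hu : ∀ i, IsEis (u i)) {k : Fin n} (huk : u k = 0) :
    IsGL (1 - vecMulVec u (Pi.single k 1)) := by
  have hN : vecMulVec u (Pi.single k 1 : Fin n → ℂ) *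
      vecMulVec u (Pi.single k 1 : Fin n → ℂ) = 0 := by
    rw [vecMulVec_mul_vecMulVec]
    simp [huk]
  have hNe : ∀ i j, IsEis (vecMulVec u (Pi.single k 1 : Fin n → ℂ) i j) := by
    intro i j
    rw [vecMulVec_apply]
    exact (hu i).mul (isLat_single k j)
  have h1e : ∀ i j, IsEis ((1 : Matrix (Fin n) (Fin n) ℂ) i j) := IsGL.one.ent
  refine ⟨fun i j => ?_, 1 + vecMulVec u (Pi.single k 1), fun i j => ?_, ?_, ?_⟩
  · rw [Matrix.sub_apply]
    exact (h1e i j).sub (hNe i j)
  · rw [Matrix.add_apply]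
    exact (h1e i j).add (hNe i j)
  · calc (1 - vecMulVec u (Pi.single k 1)) * (1 + vecMulVec u (Pi.single k 1)) =
        1 - vecMulVec u (Pi.single k 1) * vecMulVec u (Pi.single k 1) := by noncomm_ring
      _ = 1 := by rw [hN, sub_zero]
  · calc (1 + vecMulVec u (Pi.single k 1)) * (1 - vecMulVec u (Pi.single k 1)) =
        1 - vecMulVec u (Pi.single k 1) * vecMulVec u (Pi.single k 1) := by noncomm_ring
      _ = 1 := by rw [hN, sub_zero]

/-- A nonzero lattice vector is a multiple of a column of a unimodular matrix. -/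
theorem exists_mul {v : Fin (n + 1) → ℂ} (hv : IsLat v) (h0 : v ≠ 0) :
    ∃ (d : ℂ) (P : Matrix (Fin (n + 1)) (Fin (n + 1)) ℂ), IsEis d ∧ d ≠ 0 ∧ IsGL P ∧
      v = d • (P *ᵥ (Pi.single 0 1)) := by
  classical
  have hex : ∃ N : ℕ, ∃ (P : Matrix (Fin (n + 1)) (Fin (n + 1)) ℂ) (k : Fin (n + 1)), IsGL P ∧
      (P *ᵥ v) k ≠ 0 ∧ Complex.normSq ((P *ᵥ v) k) = N := by
    obtain ⟨k, hk⟩ := Function.ne_iff.1 h0
    obtain ⟨N, hN⟩ := (hv k).normSq
    exact ⟨N, 1, k, IsGL.one, by rwa [one_mulVec], by rwa [one_mulVec]⟩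
  obtain ⟨P, k, hP, hk, hN⟩ := Nat.find_spec hex
  have hmin : ∀ (Q : Matrix (Fin (n + 1)) (Fin (n + 1)) ℂ) (j : Fin (n + 1)), IsGL Q →
      (Q *ᵥ v) j ≠ 0 → Complex.normSq ((P *ᵥ v) k) ≤ Complex.normSq ((Q *ᵥ v) j) := by
    intro Q j hQ hj
    obtain ⟨N, hN'⟩ := (hQ.mulVec hv j).normSq
    rw [hN, hN']
    exact_mod_cast Nat.find_min' hex ⟨Q, j, hQ, hj, hN'⟩
  set w := P *ᵥ v with hw
  have hwl : IsLat w := hP.mulVec hv
  choose e he1 he2 using fun j : Fin (n + 1) => exists_near (w j / w k)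
  set u : Fin (n + 1) → ℂ := fun j => if j = k then 0 else e j with hu
  have huk : u k = 0 := by simp [hu]
  have hul : ∀ j, IsEis (u j) := by
    intro j
    simp only [hu]
    split_ifs
    · exact IsEis.zero
    · exact he1 j
  have hT := isGL_trans hul huk
  set T : Matrix (Fin (n + 1)) (Fin (n + 1)) ℂ := 1 - vecMulVec u (Pi.single k 1) with hTd
  have hTw : T *ᵥ w = w - w k • u := by
    rw [hTd, sub_mulVec, one_mulVec, vecMulVec_mulVec]
    ext i
    simp
  have hTwk : T *ᵥ w = w k • (Pi.single k 1 : Fin (n + 1) → ℂ) := by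
    ext j
    by_cases hj : j = k
    · subst hj
      rw [hTw]
      simp [huk]
    · by_contra hne
      have h1 : (T *ᵥ w) j ≠ 0 := by
        intro h
        apply hne
        rw [h]
        simp [hj]
      have h2 := hmin (T * P) j (hT.mul hP) (by rw [← mulVec_mulVec]; exact h1)
      rw [← mulVec_mulVec, ← hw, hTw] at h2
      have h3 : (w - w k • u) j = w k * (w j / w k - e j) := by
        rw [Pi.sub_apply, Pi.smul_apply, smul_eq_mul]
        have : u j = e j := by simp [hu, hj]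
        rw [this]
        field_simp
      rw [h3, Complex.normSq_mul] at h2
      have h4 : 0 < Complex.normSq (w k) := Complex.normSq_pos.2 hk
      have h5 := he2 j
      nlinarith
  obtain ⟨Q, hQ, hQk⟩ := exists_col (isLat_single k) (k := k) (by simp)
  have hTP := hT.mul hP
  obtain ⟨R, hR1, hR2, hR3⟩ := hTP.inv
  have hR : IsGL R := ⟨hR1, T * P, hTP.ent, hR3, hR2⟩
  refine ⟨w k, R * Q, hwl k, hk, hR.mul hQ, ?_⟩
  calc v = R *ᵥ ((T * P) *ᵥ v) := by rw [mulVec_mulVec, hR3, one_mulVec]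
    _ = R *ᵥ (w k • (Pi.single k 1 : Fin (n + 1) → ℂ)) := by
        rw [← mulVec_mulVec, ← hw, hTwk]
    _ = w k • ((R * Q) *ᵥ (Pi.single 0 1)) := by
        rw [mulVec_smul, hQk, mulVec_mulVec]

/-- **Reduction theory.** The first basis vector is a shortest nonzero lattice vector, and the
same holds for the projected lattices. -/
theorem exists_hkz : ∀ (n : ℕ) (M : Matrix (Fin n) (Fin n) ℂ), Pd M →
    ∃ (g : Matrix (Fin n) (Fin n) ℂ) (x : Fin n → Fin n → ℂ) (m : Fin n → ℝ), IsGL g ∧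
      (∀ i, 0 < m i) ∧
      (∀ i (v : Fin n → ℂ), IsLat v → (∃ k, i ≤ k ∧ v k ≠ 0) →
        m i ≤ ∑ j, if i ≤ j then m j * Complex.normSq (star (x j) ⬝ᵥ v) else 0) ∧
      (∀ i, x i i = 1) ∧ (∀ i j, j < i → x i j = 0) ∧
      gᴴ * M * g = ∑ i, (m i : ℂ) • vecMulVec (x i) (star (x i)) := by
  intro n
  induction n with
  | zero =>
    intro M _
    exact ⟨1, fun i => i.elim0, fun i => i.elim0, IsGL.one, fun i => i.elim0, fun i => i.elim0,
      fun i => i.elim0, fun i => i.elim0, by ext i; exact i.elim0⟩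
  | succ n ih =>
    intro M hM
    -- a minimal unimodular column
    obtain ⟨v, ⟨g₁, hg₁, rfl⟩, hmin⟩ := hM.exists_min
      (A := {v | ∃ g, IsGL g ∧ v = g *ᵥ (Pi.single 0 1)}) (by
        rintro _ ⟨g, hg, rfl⟩
        exact hg.mulVec (isLat_single 0)) ⟨_, 1, IsGL.one, rfl⟩
    obtain ⟨a, x₀, M', ha, hx₀, haq, hM', hdec⟩ := (hM.conj hg₁).schur
    obtain ⟨g', x', m', hg', hm', hkz, hd, hz, hM'd⟩ := ih M' hM'
    set c : Fin n → ℂ := fun j => 0 with hc
    set G := up c g' with hG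
    have hGL : IsGL G := up_isGL _ _ (fun j => IsEis.zero) hg'
    set y : Fin (n + 1) → ℂ := Gᴴ *ᵥ x₀ with hy
    have hy0 : y 0 = 1 := by
      simp [hy, hG, mulVec, dotProduct, Fin.sum_univ_succ, hx₀]
    have hmat : (g₁ * G)ᴴ * M * (g₁ * G) = ∑ i : Fin (n + 1),
        (((Fin.cons a m' : Fin (n + 1) → ℝ) i : ℝ) : ℂ) •
          vecMulVec ((Fin.cons y (fun i => Fin.cons 0 (x' i)) : Fin (n + 1) → Fin (n + 1) → ℂ) i)
            (star ((Fin.cons y (fun i => Fin.cons 0 (x' i)) : Fin (n + 1) → Fin (n + 1) → ℂ) i)) := by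
      have h1 : (g₁ * G)ᴴ * M * (g₁ * G) = Gᴴ * (g₁ᴴ * M * g₁) * G := by
        rw [conjTranspose_mul]
        simp only [Matrix.mul_assoc]
      rw [h1, hdec, Matrix.mul_add, Matrix.add_mul, up_low, hM'd, low_sum, Fin.sum_univ_succ]
      simp only [Fin.cons_zero, Fin.cons_succ]
      congr 1
      · rw [Matrix.mul_smul, Matrix.smul_mul, mul_vecMulVec, vecMulVec_mul, hy, star_mulVec,
          conjTranspose_conjTranspose]
      · exact Finset.sum_congr rfl fun i _ => low_vec _ _
    refine ⟨g₁ * G, Fin.cons y (fun i => Fin.cons 0 (x' i)), Fin.cons a m', hg₁.mul hGL, ?_, ?_,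
      ?_, ?_, hmat⟩
    · intro i
      refine Fin.cases ?_ (fun i => ?_) i
      · exact ha
      · exact hm' i
    · intro i
      refine Fin.cases ?_ (fun i => ?_) i
      · rintro v hv ⟨k, -, hk⟩
        obtain ⟨d, P, hd1, hd0, hP, hPv⟩ := exists_mul hv (fun h => hk (by rw [h]; rfl))
        have h1 := hmin _ ⟨g₁ * G * P, (hg₁.mul hGL).mul hP, rfl⟩
        have h2 : q M ((g₁ * G * P) *ᵥ Pi.single 0 1) ≤ q M ((g₁ * G) *ᵥ v) := by
          rw [hPv, mulVec_smul, q_smul_vec, mulVec_mulVec]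
          exact le_mul_of_one_le_left (hM.psd.2 _) (hd1.one_le_normSq hd0)
        have h3 := h1.trans h2
        rw [← q_conj M (g₁ * G), hmat, q_dec, ← q_conj M g₁, ← haq] at h3
        simpa using h3
      · rintro v hv ⟨k, hik, hk⟩
        have hk0 : k ≠ 0 := by
          rintro rfl
          exact absurd hik (by simp)
        obtain ⟨k, rfl⟩ := Fin.exists_succ_eq.2 hk0
        have h1 := hkz i (fun l => v l.succ) (fun l => hv l.succ) ⟨k, by simpa using hik, hk⟩
        rw [Fin.sum_univ_succ]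
        have h2 : ∀ j : Fin n, star (Fin.cons 0 (x' j) : Fin (n + 1) → ℂ) ⬝ᵥ v =
            star (x' j) ⬝ᵥ (fun l => v l.succ) := by
          intro j
          simp [dotProduct, Fin.sum_univ_succ]
        simp only [Fin.cons_succ, h2, Fin.succ_le_succ_iff]
        have h3 : ¬ i.succ ≤ 0 := by simp
        rw [if_neg h3, zero_add]
        exact h1
    · intro i
      refine Fin.cases ?_ (fun i => ?_) i
      · exact hy0
      · simp only [Fin.cons_succ]
        exact hd i
    · intro i j hij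
      refine Fin.cases (fun hij => ?_) (fun i => ?_) i hij
      · exact absurd hij (by simp)
      · intro hij
        refine Fin.cases (fun hij => ?_) (fun j => ?_) j hij
        · simp only [Fin.cons_succ, Fin.cons_zero]
        · intro hij
          simp only [Fin.cons_succ]
          exact hz i j (by simpa using hij)

end Pool.Agent.T6.H34.E6
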